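import Pool.Agent.L0h49.H.FamS

import Pool.Agent.L0h49.E.B7
import Pool.Agent.L0h48.H.CFE
import Pool.Agent.L0h19.EVP.AR

/-! From class number one to the residue search for the two families. -/

set_option maxRecDepth 100000

namespace Pool.Agent.L0h49.H

open H419R2 Finset
open Pool.Agent.N911 Pool.Agent.L0h49.E

theorem step_cenG {f : Fm} {m : ℕ} (h : f.B = m * f.C) : f.step m = flip f := by
  unfold Fm.step Pool.Agent.L0h49.E.flip
  rw [h]
  simp only [Fm.mk.injEq, true_and]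
  constructor <;> ring

section word

variable {v : WL} {t P d m : ℕ}

theorem snocG_last (hc : (endF v (f0 (t : ℤ) (P : ℤ))).B = m * (endF v (f0 (t : ℤ) (P : ℤ))).C) :
    fs (snoc v m) (f0 t P) (v.len + 1) = flip (endF v (f0 t P)) := by
  rw [fs_snoc_last, step_cenG hc]

theorem snocG_sym (hc : (endF v (f0 (t : ℤ) (P : ℤ))).B = m * (endF v (f0 (t : ℤ) (P : ℤ))).C) :
    bs (snoc v m) t P (snoc v m).len = bs (snoc v m) t P ((snoc v m).len - 1) := by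
  rw [snoc_len, Nat.add_sub_cancel]
  unfold bs
  rw [snocG_last hc, fs_snoc v m _ le_rfl, ← endF_eq]
  rfl

theorem snocG_two (hc : (endF v (f0 (t : ℤ) (P : ℤ))).B = m * (endF v (f0 (t : ℤ) (P : ℤ))).C)
    (hC1 : 1 < (endF v (f0 (t : ℤ) (P : ℤ))).C)
    (h : ∀ n, 1 ≤ n → n ≤ v.len → 1 < (fs v (f0 (t : ℤ) (P : ℤ)) n).A) :
    ∀ n, 1 ≤ n → n ≤ (snoc v m).len → (1 : ℤ) < (fs (snoc v m) (f0 t P) n).A := by
  intro n hn1 hn2
  rw [snoc_len] at hn2
  rcases Nat.lt_or_ge n (v.len + 1) with h1 | h1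
  · rw [fs_snoc v m _ (by omega)]
    exact h n hn1 (by omega)
  · have : n = v.len + 1 := by omega
    rw [this, snocG_last hc]
    exact hC1

/-- consequences of class number one -/
theorem splitG (hv : v.Pos) (hm0 : 0 < m)
    (hc : (endF v (f0 (t : ℤ) (P : ℤ))).B = m * (endF v (f0 (t : ℤ) (P : ℤ))).C)
    (hC1 : 1 < (endF v (f0 (t : ℤ) (P : ℤ))).C)
    (h : ∀ n, 1 ≤ n → n ≤ v.len → 1 < (fs v (f0 (t : ℤ) (P : ℤ)) n).A) (ht : 0 < t)
    (hDz : ((4 * d : ℕ) : ℤ) = (t : ℤ) ^ 2 + 4 * (P : ℤ))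
    (i1 : IsDomain (QA (P : ℤ) (t : ℤ))) (i2 : IsPrincipalIdealRing (QA (P : ℤ) (t : ℤ))) :
    SplitE (snoc v m) t P (4 * d) ∧
      ((∃ c : ℕ, c.Coprime (4 * d) ∧ ks d c = -1) → GoodP (snoc v m) t P (4 * d) (ks d)) := by
  have h2 := snocG_two hc hC1 h
  have h0 : 0 < (snoc v m).len := by rw [snoc_len]; omega
  have hq : ∀ k ≤ (snoc v m).len, 0 < qs (snoc v m) t (P : ℤ) k := by
    intro k hk
    rcases Nat.eq_zero_or_pos k with h0 | h0
    · subst h0; exact one_pos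
    · have := h2 k h0 hk
      unfold qs
      linarith
  have hq1 : ∀ k, 1 ≤ k → k ≤ (snoc v m).len → qs (snoc v m) t (P : ℤ) k ≠ 1 := by
    intro k hk1 hk2 h3
    have := h2 k hk1 hk2
    unfold qs at h3
    linarith
  exact ⟨splitE_of_word (snoc_pos hv hm0) h0 ht (snocG_sym hc) hq hq1 hDz i1 i2,
    fun hn => goodP_of_word (snoc_pos hv hm0) h0 ht (snocG_sym hc) hq hq1 hDz rfl hn i1 i2⟩

/-- the centre has norm two -/
theorem cen_two (hc : (endF v (f0 (t : ℤ) (P : ℤ))).B = m * (endF v (f0 (t : ℤ) (P : ℤ))).C)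
    (hA2 : ∀ n, 1 ≤ n → n ≤ v.len → (fs v (f0 (t : ℤ) (P : ℤ)) n).A ≠ 2)
    (S : SplitE (snoc v m) t P (4 * d)) (hd : 4 ≤ d) (ht2 : t % 2 = 0) :
    Cen (endF v (f0 t P)) m := by
  obtain ⟨n, hn1, hn2, hA⟩ := S.split 2 Nat.prime_two (by
    have : (4 : ℤ) ≤ d := by exact_mod_cast hd
    push_cast
    linarith) ⟨P, by
      obtain ⟨s, hs⟩ : ∃ s, t = 2 * s := ⟨t / 2, by omega⟩
      rw [hs]
      rcases Int.emod_two_eq_zero_or_one (P : ℤ) with h | h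
      · obtain ⟨j, hj⟩ : ∃ j, (P : ℤ) = 2 * j := ⟨(P : ℤ) / 2, by omega⟩
        rw [hj]
        exact ⟨2 * j ^ 2 + 2 * s * j - j, by push_cast; ring⟩
      · obtain ⟨j, hj⟩ : ∃ j, (P : ℤ) = 2 * j + 1 := ⟨(P : ℤ) / 2, by omega⟩
        rw [hj]
        exact ⟨2 * j ^ 2 + j + s * (2 * j + 1), by push_cast; ring⟩⟩
  rw [snoc_len] at hn2
  have hC : (endF v (f0 (t : ℤ) (P : ℤ))).C = 2 := by
    rcases Nat.lt_or_ge n (v.len + 1) with h1 | h1
    · rw [fs_snoc v m _ (by omega)] at hA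
      exact absurd hA (hA2 n hn1 (by omega))
    · have : n = v.len + 1 := by omega
      rw [this, snocG_last hc] at hA
      exact hA
  refine ⟨hC, ?_⟩
  rw [hc, hC]
  ring

/-- large parameters are impossible -/
theorem big_falseF {mk : ℕ → ℕ → (WL → ℕ → ℕ → Bool) → Bool} {D : ℕ}
    (hc : Cen (endF v (f0 (t : ℤ) (P : ℤ))) m)
    (S : SplitE (snoc v m) t P D) (hDd : D = 4 * d)
    (hG : (∃ c : ℕ, c.Coprime (4 * d) ∧ ks d c = -1) → GoodP (snoc v m) t P D (ks d))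
    (hb : BigH v t P)
    (hfam : ∀ l : ℕ, l ∈ LPh → ∃ a, a < l ∧ ∃ (w : WL) (U x : ℕ), WE l w v ∧
      (((P : ℕ) : ℤ) : ZMod l) * (U : ZMod l) = (((t : ℕ) : ℤ) : ZMod l) * (x : ZMod l) +
        ((2 : ℕ) : ZMod l) ∧ ∀ k, mk l a k = k w U x)
    (hany : ∀ l a : ℕ, ∃ (w : WL) (U x : ℕ), ∀ k, mk l a k = k w U x)
    (hrun : ∀ a, a < 37 → ∃ n0 n, n0 ≤ a ∧ a < n0 + n ∧ wOKf mk n0 n = true) : False := by
  have hD := S.hD
  have hDn : D = t * t + 4 * P := by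
    have : (D : ℤ) = ((t * t + 4 * P : ℕ) : ℤ) := by rw [hD]; push_cast; ring
    exact_mod_cast this
  have hDbig : 21316 ≤ D := by rw [hDn]; exact hb.1
  have hno : ∀ l : ℕ, l.Prime → l ≠ 2 → l ≤ 73 → ¬ ∃ w0 : ℤ, (l : ℤ) ∣ w0 ^ 2 + t * w0 - P := by
    intro l hl hl2 hl73 hex
    obtain ⟨n, hn1, hn2, hA⟩ := split_odd hc S hl hl2 (by
      have h1 : (21316 : ℤ) ≤ D := by exact_mod_cast hDbig
      have h2 : (l : ℤ) ≤ 73 := by exact_mod_cast hl73
      have h3 : (0 : ℤ) ≤ l := by positivity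
      nlinarith) hex
    have h4 := hb.2.1 n hn1 hn2
    rw [hA] at h4
    have h2 : (l : ℤ) ≤ 73 := by exact_mod_cast hl73
    linarith
  have hnsq : ∀ l : ℕ, l ∈ LPh → ¬ IsSquare ((((t : ℤ) ^ 2 + 4 * P : ℤ)) : ZMod l) := by
    intro l hl hsq
    rw [← hD] at hsq
    obtain ⟨h1, h2, h3⟩ := LPh_prime hl
    exact hno l h1 h3 h2 (root_of_square h1 h3 hD hsq)
  have hbase : BaseH ((t : ℤ) ^ 2 + 4 * P) := ⟨hnsq⟩
  have hcD : Nat.Coprime M2n D := by
    have h1 : IsCoprime ((D : ℤ)) (M2n : ℤ) := by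
      apply isCoprime_M2
      intro l hl hd
      apply hnsq l hl
      rw [← hD, (ZMod.intCast_zmod_eq_zero_iff_dvd _ _).mpr hd]
      exact ⟨0, by simp⟩
    exact (Nat.isCoprime_iff_coprime.mp h1).symm
  have h3D : Nat.Coprime 3 D := Nat.Coprime.coprime_dvd_left (by decide +kernel) hcD
  have hks : ks d 3 = -1 := by
    have hF : Fact (Nat.Prime 3) := ⟨by norm_num⟩
    unfold ks
    rw [if_neg (by norm_num), ← jacobiSym.legendreSym.to_jacobiSym]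
    have hd0 : (((d : ℕ) : ℤ) : ZMod 3) ≠ 0 := by
      intro h0
      have h1 : (3 : ℕ) ∣ d := by
        have := (ZMod.intCast_zmod_eq_zero_iff_dvd _ 3).mp h0
        exact_mod_cast this
      have h2 : (3 : ℕ) ∣ D := by rw [hDd]; exact h1.mul_left 4
      have h3 := Nat.dvd_gcd (dvd_refl 3) h2
      rw [h3D] at h3
      norm_num at h3
    rcases legendreSym.eq_one_or_neg_one 3 hd0 with h1 | h1
    · exfalso
      rw [legendreSym.eq_one_iff 3 hd0] at h1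
      apply hnsq 3 k3
      rw [← hD, hDd]
      obtain ⟨r, hr⟩ := h1
      refine ⟨2 * r, ?_⟩
      push_cast at hr ⊢
      rw [hr]
      ring
    · exact h1
  have G := hG ⟨3, by rw [← hDd]; exact h3D, hks⟩
  have Sy : SysF mk v t P m := by
    refine ⟨hbase, hc, ?_, hfam, hany⟩
    intro c' hc' h1 h2 _
    have h3 : ¬ (c'.p : ℤ) ∣ D := by
      intro h
      have h4 : c'.p ∣ D := by exact_mod_cast h
      have h5 : c'.p ∣ 1 := by
        rw [← hcD]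
        exact Nat.dvd_gcd h2 h4
      exact hc'.pp.one_lt.ne' (Nat.dvd_one.mp h5)
    exact G.rel_mod hc'.pp hc'.p2 h3 (Nat.Coprime.coprime_dvd_left h1 hcD) _ (chi_mul hc'.mul)
      (chi_neg hc'.q1 hc'.mul hc'.oth) (chi_sum hc'.oth)
  exact wOKf_sound Sy hrun

end word

end Pool.Agent.L0h49.H
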