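import Pool.Agent.L0h49.H.Fam

/-! A run of the residue search. -/

set_option maxRecDepth 100000

namespace Pool.Agent.L0h49.H

theorem run6_1 : wOKf mk6 13 12 = true := by decide +kernel

end Pool.Agent.L0h49.H
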