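import Pool.Agent.L0h49.H.R6a
import Pool.Agent.L0h49.H.R6b
import Pool.Agent.L0h49.H.R6c
import Pool.Agent.L0h49.H.R8a
import Pool.Agent.L0h49.H.R8b
import Pool.Agent.L0h49.H.R8c

/-! All windows. -/

set_option maxRecDepth 100000

namespace Pool.Agent.L0h49.H

theorem all6 : ∀ a, a < 37 → ∃ n0 n, n0 ≤ a ∧ a < n0 + n ∧ wOKf mk6 n0 n = true := by
  intro a ha
  rcases Nat.lt_or_ge a 13 with h | h
  · exact ⟨0, 13, by omega, by omega, run6_0⟩
  rcases Nat.lt_or_ge a 25 with h | h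
  · exact ⟨13, 12, by omega, by omega, run6_1⟩
  · exact ⟨25, 12, by omega, by omega, run6_2⟩

theorem all8 : ∀ a, a < 37 → ∃ n0 n, n0 ≤ a ∧ a < n0 + n ∧ wOKf mk8 n0 n = true := by
  intro a ha
  rcases Nat.lt_or_ge a 13 with h | h
  · exact ⟨0, 13, by omega, by omega, run8_0⟩
  rcases Nat.lt_or_ge a 25 with h | h
  · exact ⟨13, 12, by omega, by omega, run8_1⟩
  · exact ⟨25, 12, by omega, by omega, run8_2⟩

end Pool.Agent.L0h49.H
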