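import Pool.Agent.L0h49.H.Asm
import Pool.Agent.L0h49.H.RF

/-! Words of length two and three with middle norm two. -/

set_option maxRecDepth 100000

namespace Pool.Agent.L0h49.H

open H419R2 Finset
open Pool.Agent.N911 Pool.Agent.L0h49.E

theorem any6 (l a : ℕ) : ∃ (w : WL) (U x : ℕ), ∀ k, mk6 l a k = k w U x := by
  refine ⟨WL.cons a (WL.cons (Nat.mul 2 a) WL.nil), Nat.add (Nat.mul a (Nat.mul 2 a)) 1,
    Nat.mul 2 a, fun k => ?_⟩
  unfold mk6
  rw [force_eq, force_eq]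

theorem any8 (l a : ℕ) : ∃ (w : WL) (U x : ℕ), ∀ k, mk8 l a k = k w U x := by
  refine ⟨WL.cons a (WL.cons 1 (WL.cons (Nat.add (Nat.mul 2 a) 1) WL.nil)),
    Nat.add (Nat.mul a (Nat.add (Nat.add (Nat.mul 2 a) 1) 1)) (Nat.add (Nat.mul 2 a) 1),
    Nat.add (Nat.add (Nat.mul 2 a) 1) 1, fun k => ?_⟩
  unfold mk8
  rw [force_eq, force_eq, force_eq]

theorem fam6 {P t a : ℕ} (hlin : (P : ℤ) * (a * (2 * a) + 1) = t * (2 * a) + 2) {l : ℕ}
    (hl : 0 < l) : ∃ a', a' < l ∧ ∃ (w : WL) (U x : ℕ), WE l w (.cons a (.cons (2 * a) .nil)) ∧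
      (((P : ℕ) : ℤ) : ZMod l) * (U : ZMod l) = (((t : ℕ) : ℤ) : ZMod l) * (x : ZMod l) +
        ((2 : ℕ) : ZMod l) ∧ ∀ k, mk6 l a' k = k w U x := by
  refine ⟨a % l, Nat.mod_lt _ hl, WL.cons (a % l) (WL.cons (Nat.mul 2 (a % l)) WL.nil),
    Nat.add (Nat.mul (a % l) (Nat.mul 2 (a % l))) 1, Nat.mul 2 (a % l),
    ⟨Nat.mod_mod _ _, ?_, trivial⟩, ?_, fun k => ?_⟩
  · exact Nat.ModEq.mul_left 2 (Nat.mod_modEq a l)
  · have h1 := congrArg (fun z : ℤ => (z : ZMod l)) hlin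
    change (((P : ℕ) : ℤ) : ZMod l) * (((a % l) * (2 * (a % l)) + 1 : ℕ) : ZMod l) =
      (((t : ℕ) : ℤ) : ZMod l) * ((2 * (a % l) : ℕ) : ZMod l) + ((2 : ℕ) : ZMod l)
    push_cast at h1 ⊢
    rw [ZMod.natCast_mod]
    exact h1
  · unfold mk6
    rw [force_eq, force_eq]

theorem fam8 {P t a : ℕ}
    (hlin : (P : ℤ) * (a * (2 * a + 1 + 1) + (2 * a + 1)) = t * (2 * a + 1 + 1) + 2) {l : ℕ}
    (hl : 0 < l) : ∃ a', a' < l ∧ ∃ (w : WL) (U x : ℕ),
      WE l w (.cons a (.cons 1 (.cons (2 * a + 1) .nil))) ∧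
      (((P : ℕ) : ℤ) : ZMod l) * (U : ZMod l) = (((t : ℕ) : ℤ) : ZMod l) * (x : ZMod l) +
        ((2 : ℕ) : ZMod l) ∧ ∀ k, mk8 l a' k = k w U x := by
  refine ⟨a % l, Nat.mod_lt _ hl,
    WL.cons (a % l) (WL.cons 1 (WL.cons (Nat.add (Nat.mul 2 (a % l)) 1) WL.nil)),
    Nat.add (Nat.mul (a % l) (Nat.add (Nat.add (Nat.mul 2 (a % l)) 1) 1))
      (Nat.add (Nat.mul 2 (a % l)) 1),
    Nat.add (Nat.add (Nat.mul 2 (a % l)) 1) 1, ⟨Nat.mod_mod _ _, rfl, ?_, trivial⟩, ?_,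
    fun k => ?_⟩
  · exact Nat.ModEq.add_right 1 (Nat.ModEq.mul_left 2 (Nat.mod_modEq a l))
  · have h1 := congrArg (fun z : ℤ => (z : ZMod l)) hlin
    change (((P : ℕ) : ℤ) : ZMod l) * (((a % l) * (2 * (a % l) + 1 + 1) + (2 * (a % l) + 1) : ℕ) :
      ZMod l) = (((t : ℕ) : ℤ) : ZMod l) * ((2 * (a % l) + 1 + 1 : ℕ) : ZMod l) +
        ((2 : ℕ) : ZMod l)
    push_cast at h1 ⊢
    rw [ZMod.natCast_mod]
    exact h1
  · unfold mk8
    rw [force_eq, force_eq, force_eq]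

section fin

variable {v : WL} {t P d m : ℕ} {K : Type*} [Field K] [NumberField K] {z : K}

/-- small middle convergents -/
theorem small_pm (hsf : Squarefree (d : ℤ)) (hd4 : d % 4 = 2 ∨ d % 4 = 3) (hd : 4 ≤ d)
    (hK : Module.finrank ℚ K = 2) (hz : z ^ 2 = ((d : ℤ) : K))
    (hcl : NumberField.classNumber K = 1) {U : ℕ} {S : ℤ} (hU0 : 0 < U) (hU : U < 10 ^ 4)
    (h : S ^ 2 + 2 = d * (U : ℤ) ^ 2 ∨ S ^ 2 = d * (U : ℤ) ^ 2 + 2) : d ∈ LH := by
  obtain ⟨s, hs⟩ : ∃ s : ℕ, (s : ℤ) ^ 2 = S ^ 2 := ⟨S.natAbs, Int.natAbs_sq S⟩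
  rw [← hs] at h
  have hUU : U * U ≤ 9999 * 9999 := Nat.mul_le_mul (by omega) (by omega)
  have hdU : d * (U * U) ≤ d * (9999 * 9999) := Nat.mul_le_mul_left _ hUU
  have h1U : 1 * 1 ≤ U * U := Nat.mul_le_mul hU0 hU0
  have hdU1 : d * 1 ≤ d * (U * U) := Nat.mul_le_mul_left _ (by omega)
  rcases h with h | h
  · have hn : s * s + 2 = d * (U * U) := by
      have : ((s * s + 2 : ℕ) : ℤ) = ((d * (U * U) : ℕ) : ℤ) := by
        push_cast
        linear_combination h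
      exact_mod_cast this
    have hs0 : 0 < s := by
      rcases Nat.eq_zero_or_pos s with h0 | h0
      · subst h0; omega
      · exact h0
    refine unit_final (T := s * s + 1) (U := s * U) hsf hd4 hK hz hcl (Nat.mul_pos hs0 hU0) ?_ ?_
    · have e : (s * s + 1) ^ 2 = (s * s) * (s * s + 2) + 1 := by ring
      rw [e, hn]
      ring
    · omega
  · have hn : s * s = d * (U * U) + 2 := by
      have : ((s * s : ℕ) : ℤ) = ((d * (U * U) + 2 : ℕ) : ℤ) := by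
        push_cast
        linear_combination h
      exact_mod_cast this
    have hs0 : 0 < s := by
      rcases Nat.eq_zero_or_pos s with h0 | h0
      · subst h0; omega
      · exact h0
    refine unit_final (T := d * (U * U) + 1) (U := s * U) hsf hd4 hK hz hcl
      (Nat.mul_pos hs0 hU0) ?_ ?_
    · have e : (d * (U * U) + 1) ^ 2 = (d * (U * U)) * (d * (U * U) + 2) + 1 := by ring
      rw [e, ← hn]
      ring
    · omega

/-- large parameters of the first family -/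
theorem big6 {a n : ℤ} {t P : ℕ} (ha : 71 ≤ a) (ht : (t : ℤ) = 2 * n)
    (hlin : (P : ℤ) * (a * (2 * a) + 1) = t * (2 * a) + 2) (h1 : 1 < (P : ℤ))
    (h2 : 1 < 1 + a * t - a ^ 2 * (P : ℤ)) :
    21316 ≤ t * t + 4 * P ∧ 74 ≤ (P : ℤ) ∧ 74 ≤ 1 + a * t - a ^ 2 * (P : ℤ) := by
  obtain ⟨p, hp⟩ : ∃ p : ℤ, p = 2 * a * n + 1 - P * a ^ 2 := ⟨_, rfl⟩
  have hP : (P : ℤ) = 2 * p := by
    rw [hp]
    rw [ht] at hlin
    linear_combination hlin
  have hA : 1 + a * t - a ^ 2 * (P : ℤ) = p := by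
    rw [hp, ht]
    ring
  rw [hA] at h2 ⊢
  have hs : p - 1 = 2 * a * (n - a * p) := by
    rw [hP] at hp
    linear_combination hp
  have hs1 : 1 ≤ n - a * p := by
    by_contra hc
    push Not at hc
    have : n - a * p ≤ 0 := by omega
    nlinarith
  have hp1 : 2 * a + 1 ≤ p := by nlinarith
  have hap : 71 * 143 ≤ a * p := by nlinarith
  have ht1 : (146 : ℤ) ≤ t := by rw [ht]; linarith
  refine ⟨?_, by linarith, by linarith⟩
  have h3 : 146 ≤ t := by exact_mod_cast ht1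
  have h4 : 146 * 146 ≤ t * t := Nat.mul_le_mul h3 h3
  omega

/-- large parameters of the second family -/
theorem big8 {a n : ℤ} {t P : ℕ} (ha : 70 ≤ a) (ht : (t : ℤ) = 2 * n)
    (hlin : (P : ℤ) * (a * (2 * a + 1 + 1) + (2 * a + 1)) = t * (2 * a + 1 + 1) + 2)
    (h1 : 1 < (P : ℤ)) :
    21316 ≤ t * t + 4 * P ∧ 74 ≤ (P : ℤ) ∧ 74 ≤ 1 + a * t - a ^ 2 * (P : ℤ) ∧
      74 ≤ P + (2 * a * (P : ℤ) - t) - (1 + a * t - a ^ 2 * (P : ℤ)) := by
  obtain ⟨e, he⟩ : ∃ e : ℤ, a = e - 1 := ⟨a + 1, by ring⟩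
  subst he
  obtain ⟨p, hp⟩ : ∃ p : ℤ, p = P * e ^ 2 - 2 * e * n - 1 := ⟨_, rfl⟩
  have hP : (P : ℤ) = 2 * p := by
    rw [hp]
    rw [ht] at hlin
    linear_combination -hlin
  obtain ⟨s, hs⟩ : ∃ s : ℤ, s = p * e - n := ⟨_, rfl⟩
  have hs1 : p + 1 = 2 * e * s := by
    rw [hP] at hp
    rw [hs]
    linear_combination hp
  have he1 : 71 ≤ e := by linarith
  have hp0 : 1 ≤ p := by omega
  have hs2 : 1 ≤ s := by
    by_contra hc
    push Not at hc
    have : s ≤ 0 := by omega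
    nlinarith
  have hp1 : 2 * e - 1 ≤ p := by nlinarith
  have hn : n = p * e - s := by rw [hs]; ring
  have hpe : p = 2 * e * s - 1 := by linarith
  have hes : 71 * 1 ≤ e * s := by nlinarith
  have hA2 : 1 + (e - 1) * t - (e - 1) ^ 2 * (P : ℤ) = 1 + 2 * (e - 1) * (s * (2 * e - 1) - 1) := by
    rw [ht, hP, hn, hpe]
    ring
  have hA3 : P + (2 * (e - 1) * (P : ℤ) - t) - (1 + (e - 1) * t - (e - 1) ^ 2 * (P : ℤ)) = p := by
    rw [ht, hP, hn, hpe]
    ring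
  rw [hA3, hA2]
  have hn1 : 73 ≤ n := by
    rw [hn]
    have : 141 * 71 ≤ p * e := by nlinarith
    have : s ≤ p := by nlinarith
    nlinarith
  have ht1 : (146 : ℤ) ≤ t := by rw [ht]; linarith
  refine ⟨?_, by linarith, ?_, by linarith⟩
  · have h3 : 146 ≤ t := by exact_mod_cast ht1
    have h4 : 146 * 146 ≤ t * t := Nat.mul_le_mul h3 h3
    omega
  · have h5 : 1 ≤ s * (2 * e - 1) - 1 := by nlinarith
    nlinarith

/-- the centre of a word of length two -/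
theorem cenC2 {a b : ℕ} (hC : (endF (.cons a (.cons b .nil)) (f0 (t : ℤ) (P : ℤ))).C = 2) :
    ((a * b + 1 : ℕ) : ℤ) * ((P : ℤ) * (a * b + 1) - t * b) - (b : ℤ) ^ 2 = 2 := by
  rw [endC] at hC
  have e1 : (f0 (t : ℤ) (P : ℤ)).A = 1 := rfl
  have e2 : (f0 (t : ℤ) (P : ℤ)).B = t := rfl
  have e3 : (f0 (t : ℤ) (P : ℤ)).C = P := rfl
  have e4 : (WL.cons a (.cons b .nil)).len = 2 := rfl
  have e5 : cw (.cons a (.cons b .nil)) = (a * (b * 1 + 0) + 1, b * 1 + 0) := rfl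
  rw [e1, e2, e3, e4, e5] at hC
  push_cast at hC ⊢
  linear_combination hC

/-- the centre of a word of length three -/
theorem cenC3 {a b e : ℕ}
    (hC : (endF (.cons a (.cons b (.cons e .nil))) (f0 (t : ℤ) (P : ℤ))).C = 2) :
    ((a * (b * e + 1) + e : ℕ) : ℤ) * ((P : ℤ) * (a * (b * e + 1) + e) - t * (b * e + 1)) -
      ((b * e + 1 : ℕ) : ℤ) ^ 2 = -2 := by
  rw [endC] at hC
  have e1 : (f0 (t : ℤ) (P : ℤ)).A = 1 := rfl
  have e2 : (f0 (t : ℤ) (P : ℤ)).B = t := rfl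
  have e3 : (f0 (t : ℤ) (P : ℤ)).C = P := rfl
  have e4 : (WL.cons a (.cons b (.cons e .nil))).len = 3 := rfl
  have e5 : cw (.cons a (.cons b (.cons e .nil))) =
    (a * (b * (e * 1 + 0) + 1) + (e * 1 + 0), b * (e * 1 + 0) + 1) := rfl
  rw [e1, e2, e3, e4, e5] at hC
  push_cast at hC ⊢
  linear_combination -hC

/-- half periods of length two or three -/
theorem word_fin (hv : v.Pos) (hlen : v.len = 2 ∨ v.len = 3) (hm0 : 0 < m)
    (hc : (endF v (f0 (t : ℤ) (P : ℤ))).B = m * (endF v (f0 (t : ℤ) (P : ℤ))).C)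
    (hC1 : 1 < (endF v (f0 (t : ℤ) (P : ℤ))).C)
    (h : ∀ n, 1 ≤ n → n ≤ v.len → 1 < (fs v (f0 (t : ℤ) (P : ℤ)) n).A)
    (hA2 : ∀ n, 1 ≤ n → n ≤ v.len → (fs v (f0 (t : ℤ) (P : ℤ)) n).A ≠ 2) (ht : 0 < t)
    (ht2 : t % 2 = 0) (hdt : 4 * d = t * t + 4 * P)
    (hsf : Squarefree (d : ℤ)) (hd4 : d % 4 = 2 ∨ d % 4 = 3) (hd : 4 ≤ d)
    (hK : Module.finrank ℚ K = 2) (hz : z ^ 2 = ((d : ℤ) : K))
    (hcl : NumberField.classNumber K = 1) : d ∈ LH ∧ Cen (endF v (f0 (t : ℤ) (P : ℤ))) m := by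
  have hDz : ((4 * d : ℕ) : ℤ) = (t : ℤ) ^ 2 + 4 * (P : ℤ) := by rw [hdt]; push_cast; ring
  have hd1' : (1 : ℤ) < d := by exact_mod_cast (by omega : 1 < d)
  obtain ⟨n, rfl⟩ : ∃ n, t = 2 * n := ⟨t / 2, by omega⟩
  have hdn : d = n * n + P := by
    have e : 2 * n * (2 * n) = 4 * (n * n) := by ring
    omega
  have hdz : (d : ℤ) = (n : ℤ) ^ 2 + P := by rw [hdn]; push_cast; ring
  have hring : IsDomain (QA (P : ℤ) ((2 * n : ℕ) : ℤ)) ∧
      IsPrincipalIdealRing (QA (P : ℤ) ((2 * n : ℕ) : ℤ)) := by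
    have hcast : ((2 * n : ℕ) : ℤ) = 2 * (n : ℤ) := by push_cast; ring
    rw [hcast]
    exact ⟨Ev.isDomain_even hdz (not_sq_of_squarefree hsf hd1'),
      Ev.pid_even hdz hsf (by omega) hd1' hK hz hcl⟩
  obtain ⟨i1, i2⟩ := hring
  obtain ⟨S, hG⟩ := splitG hv hm0 hc hC1 h ht hDz i1 i2
  have hcen := cen_two hc hA2 S hd ht2
  refine ⟨?_, hcen⟩
  have hBpos : (1 : ℤ) ≤ (endF v (f0 ((2 * n : ℕ) : ℤ) P)).B := by
    rw [hcen.hB]
    have : (1 : ℤ) ≤ m := by exact_mod_cast hm0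
    linarith
  have htn : ((2 * n : ℕ) : ℤ) = 2 * (n : ℤ) := by push_cast; ring
  rcases v with _ | ⟨a, _ | ⟨b, _ | ⟨e, _ | ⟨f, w⟩⟩⟩⟩
  · exfalso
    have e0 : WL.nil.len = 0 := rfl
    omega
  · exfalso
    have e0 : (WL.cons a .nil).len = 1 := rfl
    omega
  · -- length two
    obtain ⟨ha, hb, -⟩ := hv
    have hid := cenC2 hcen.hC
    rcases Nat.lt_or_ge (a * b + 1) (10 ^ 4) with hU | hU
    · refine small_pm (U := a * b + 1) (S := n * (a * b + 1) + b) hsf hd4 hd hK hz hcl (by omega) hU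
        (Or.inl ?_)
      rw [hdz]
      rw [htn] at hid
      push_cast at hid ⊢
      linear_combination -hid
    · exfalso
      rcases Pool.Agent.L0h19.EVP.t_AR.1 a b _ ha hb hid with ⟨hab, hcc⟩ | ⟨h1, h2, -⟩
      · subst hab
        have ha1 : 71 ≤ a := by
          by_contra hcon
          have h3 : a * (2 * a) ≤ 70 * 140 := Nat.mul_le_mul (by omega) (by omega)
          omega
        have hlin : (P : ℤ) * ((a : ℤ) * (2 * a) + 1) = ((2 * n : ℕ) : ℤ) * (2 * a) + 2 := by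
          push_cast at hcc ⊢
          linear_combination hcc
        have g1 := h 1 le_rfl (by change 1 ≤ 2; omega)
        have g2 := h 2 (by omega) le_rfl
        have f1 : (fs (.cons a (.cons (2 * a) .nil)) (f0 ((2 * n : ℕ) : ℤ) (P : ℤ)) 1).A = P := rfl
        have f2 : (fs (.cons a (.cons (2 * a) .nil)) (f0 ((2 * n : ℕ) : ℤ) (P : ℤ)) 2).A =
          1 + a * ((2 * n : ℕ) : ℤ) - (a : ℤ) ^ 2 * P := rfl
        rw [f1] at g1
        rw [f2] at g2
        obtain ⟨b1, b2, b3⟩ := big6 (a := a) (n := n) (by exact_mod_cast ha1) htn hlin g1 g2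
        refine big_falseF (mk := mk6) hcen S rfl hG ⟨b1, ?_, hBpos⟩
          (fun l hl => fam6 hlin (by have := (LPh_prime hl).1.pos; exact this)) any6 all6
        intro k hk1 hk2
        have hk2' : k ≤ 2 := hk2
        have : k = 1 ∨ k = 2 := by omega
        rcases this with rfl | rfl
        · rw [f1]; exact b2
        · rw [f2]; exact b3
      · subst h1; subst h2
        omega
  · -- length three
    obtain ⟨ha, hb, he, -⟩ := hv
    have hid := cenC3 hcen.hC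
    rcases Nat.lt_or_ge (a * (b * e + 1) + e) (10 ^ 4) with hU | hU
    · refine small_pm (U := a * (b * e + 1) + e) (S := n * (a * (b * e + 1) + e) + (b * e + 1))
        hsf hd4 hd hK hz hcl (by omega) hU (Or.inr ?_)
      rw [hdz]
      rw [htn] at hid
      push_cast at hid ⊢
      linear_combination -hid
    · exfalso
      rcases Pool.Agent.L0h19.EVP.t_AR.2 a b e _ ha hb he hid with ⟨h1, h2, hcc⟩ | ⟨h1, h2, h3, -⟩
      · subst h1; subst h2
        have ha1 : 70 ≤ a := by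
          by_contra hcon
          have h3 : a * (1 * (2 * a + 1) + 1) ≤ 69 * 140 := Nat.mul_le_mul (by omega) (by omega)
          omega
        have hlin : (P : ℤ) * ((a : ℤ) * (2 * a + 1 + 1) + (2 * a + 1)) =
            ((2 * n : ℕ) : ℤ) * (2 * a + 1 + 1) + 2 := by
          push_cast at hcc ⊢
          linear_combination hcc
        have g1 := h 1 le_rfl (by change 1 ≤ 3; omega)
        have f1 : (fs (.cons a (.cons 1 (.cons (2 * a + 1) .nil)))
          (f0 ((2 * n : ℕ) : ℤ) (P : ℤ)) 1).A = P := rfl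
        have f2 : (fs (.cons a (.cons 1 (.cons (2 * a + 1) .nil)))
          (f0 ((2 * n : ℕ) : ℤ) (P : ℤ)) 2).A = 1 + a * ((2 * n : ℕ) : ℤ) - (a : ℤ) ^ 2 * P := rfl
        have f3 : (fs (.cons a (.cons 1 (.cons (2 * a + 1) .nil)))
          (f0 ((2 * n : ℕ) : ℤ) (P : ℤ)) 3).A = P + ((1 : ℕ) : ℤ) * (2 * a * P - ((2 * n : ℕ) : ℤ)) -
            ((1 : ℕ) : ℤ) ^ 2 * (1 + a * ((2 * n : ℕ) : ℤ) - (a : ℤ) ^ 2 * P) := rfl
        rw [f1] at g1
        obtain ⟨b1, b2, b3, b4⟩ := big8 (a := a) (n := n) (by exact_mod_cast ha1) htn hlin g1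
        refine big_falseF (mk := mk8) hcen S rfl hG ⟨b1, ?_, hBpos⟩
          (fun l hl => fam8 hlin (by have := (LPh_prime hl).1.pos; exact this)) any8 all8
        intro k hk1 hk2
        have hk2' : k ≤ 3 := hk2
        have : k = 1 ∨ k = 2 ∨ k = 3 := by omega
        rcases this with rfl | rfl | rfl
        · rw [f1]; exact b2
        · rw [f2]; exact b3
        · rw [f3]
          have e4 : P + ((1 : ℕ) : ℤ) * (2 * a * P - ((2 * n : ℕ) : ℤ)) -
            ((1 : ℕ) : ℤ) ^ 2 * (1 + a * ((2 * n : ℕ) : ℤ) - (a : ℤ) ^ 2 * P) =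
            P + (2 * a * (P : ℤ) - ((2 * n : ℕ) : ℤ)) -
              (1 + a * ((2 * n : ℕ) : ℤ) - (a : ℤ) ^ 2 * P) := by push_cast; ring
          rw [e4]
          exact b4
      · subst h1; subst h2; subst h3
        omega
  · exfalso
    have e0 : (WL.cons a (.cons b (.cons e (.cons f w)))).len = w.len + 4 := rfl
    omega

end fin

end Pool.Agent.L0h49.H
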