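import Pool.Agent.L0h49.H.WE
import Pool.Agent.L0h49.H.D1
import Pool.Agent.L0h49.H.D2

/-! The residue search for the two families of words with middle norm two. -/

set_option maxRecDepth 100000

namespace Pool.Agent.L0h49.H

open H419R2 Finset
open Pool.Agent.N911 Pool.Agent.L0h49.E

/-- the words `(a, 2 a)` -/
noncomputable def mk6 (_l a : ℕ) (k : WL → ℕ → ℕ → Bool) : Bool :=
  force (Nat.mul 2 a) (fun b => force (Nat.add (Nat.mul a b) 1) (fun u =>
    k (WL.cons a (WL.cons b WL.nil)) u b))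

/-- the words `(a, 1, 2 a + 1)` -/
noncomputable def mk8 (_l a : ℕ) (k : WL → ℕ → ℕ → Bool) : Bool :=
  force (Nat.add (Nat.mul 2 a) 1) (fun e => force (Nat.add e 1) (fun x =>
    force (Nat.add (Nat.mul a x) e) (fun u =>
      k (WL.cons a (WL.cons 1 (WL.cons e WL.nil))) u x)))

/-- lists of words with local solutions -/
inductive FS where
  | nil : FS
  | cons (w : WL) (S : TS) (l : FS) : FS

/-- membership -/
def FS.Mem (w : WL) (S : TS) : FS → Prop
  | .nil => False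
  | .cons w' S' l => (w' = w ∧ S' = S) ∨ FS.Mem w S l

/-- all entries -/
noncomputable def FS.all (F : FS) (f : WL → TS → Bool) : Bool :=
  @FS.rec (fun _ => Bool) true (fun w S _ ih => cj (f w S) ih) F

noncomputable def x365 (c : CD) (a b : ℕ) : ℕ := chD c 146 220 a b
noncomputable def e365 (c : CD) (a b : ℕ) : ℕ := evD c 5 146 73 220 a b
noncomputable def x305 (c : CD) (a b : ℕ) : ℕ := chD c 61 245 a b
noncomputable def e305 (c : CD) (a b : ℕ) : ℕ := evD c 5 61 61 245 a b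

/-- the lists -/
structure LF where
  F3 : FS
  F5 : FS
  F7 : FS
  F13 : FS
  F19 : FS
  F61 : FS
  F73 : FS

/-- last stage, modulo 61 -/
noncomputable def w61f (L : LF) (w13 : WL) (t13 m13 : ℕ) (T13 : TL) (w37 : WL) (t37 m37 : ℕ)
    (T37 T5 : TL) : Bool :=
  L.F61.all (fun w S => co2h (x481 c481_61) (e481 c481_61) w T13 T37 (fun K c0 d0 =>
    S.all (fun t m T61 => imp (ln3 61 K c0 d0 t m)
      (imp (ck2h 13 (x305 c305_13_0) (e305 c305_13_0) w13 T5 T61 t13 m13)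
      (imp (ck2h 13 (x305 c305_13_1) (e305 c305_13_1) w13 T5 T61 t13 m13)
      (imp (ck2h 37 (x305 c305_37_0) (e305 c305_37_0) w37 T5 T61 t37 m37) false))))))

/-- stage modulo 73 -/
noncomputable def w73f (L : LF) (w13 : WL) (t13 m13 : ℕ) (T13 : TL) (w37 : WL) (t37 m37 : ℕ)
    (T37 T7 T19 T5 : TL) : Bool :=
  L.F73.all (fun w S => co2h (x133_73 c133_73) (e133_73 c133_73) w T7 T19 (fun K c0 d0 =>
    S.all (fun t m T73 => imp (ln3 73 K c0 d0 t m)
      (imp (ck2h 37 (x365 c365_37_0) (e365 c365_37_0) w37 T5 T73 t37 m37)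
      (imp (ck2h 37 (x365 c365_37_1) (e365 c365_37_1) w37 T5 T73 t37 m37)
        (w61f L w13 t13 m13 T13 w37 t37 m37 T37 T5))))))

/-- stage modulo 13 -/
noncomputable def w13f (L : LF) (w37 : WL) (t37 m37 : ℕ) (T37 T7 T19 T3 T5 : TL) : Bool :=
  L.F13.all (fun w S => co2h x95 e95 w T19 T5 (fun K c0 d0 => S.all (fun t m T13 =>
    imp (ln3 13 K c0 d0 t m) (co3h x105 e105 w T7 T3 T5 (fun K1 c1 d1 =>
    imp (ln3 13 K1 c1 d1 t m) (co2h x185 e185 w T37 T5 (fun K2 c2 d2 =>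
    imp (ln3 13 K2 c2 d2 t m) (co2h x133_13 e133_13 w T7 T19 (fun K3 c3 d3 =>
    imp (ln3 13 K3 c3 d3 t m) (imp (ck2h 37 x91 e91 w37 T7 T13 t37 m37)
      (w73f L w t m T13 w37 t37 m37 T37 T7 T19 T5)))))))))))

/-- stages modulo 3 and 5 -/
noncomputable def w3f (L : LF) (w37 : WL) (t37 m37 : ℕ) (T37 T7 : TL) (w19 : WL)
    (t19 m19 : ℕ) (T19 : TL) : Bool :=
  L.F3.all (fun _ S => S.all (fun _ _ T3 =>
    imp (ck2h 19 x111_0 e111_0 w19 T37 T3 t19 m19) (imp (ck2h 19 x111_1 e111_1 w19 T37 T3 t19 m19)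
      (L.F5.all (fun _ S5 => S5.all (fun _ _ T5 => w13f L w37 t37 m37 T37 T7 T19 T3 T5))))))

/-- stage modulo 7 and 19 -/
noncomputable def w7f (L : LF) (w37 : WL) (t37 m37 : ℕ) (T37 : TL) : Bool :=
  mapT (sl 7 X259_2) (sl 49 E259_2) T37 (fun A =>
  L.F7.all (fun w7 S7 => S7.all (fun _ _ T7 => imp (ck0h 19 w7 A T7)
    (L.F19.all (fun w19 S19 => co2h x259_0 e259_0 w19 T37 T7 (fun K c0 d0 =>
      S19.all (fun t19 m19 T19 => imp (ln3 19 K c0 d0 t19 m19)
      (co2h x259_1 e259_1 w19 T37 T7 (fun K1 c1 d1 => imp (ln3 19 K1 c1 d1 t19 m19)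
        (imp (ck2h 37 x133_37 e133_37 w37 T7 T19 t37 m37)
          (w3f L w37 t37 m37 T37 T7 w19 t19 m19 T19)))))))))))

/-- classes in a window -/
noncomputable def alW (n0 n : ℕ) (f : ℕ → Bool) : Bool :=
  allN n (fun i => force (Nat.add n0 i) f)

section defs

variable (mk : ℕ → ℕ → (WL → ℕ → ℕ → Bool) → Bool)

/-- all classes modulo `l` with their local solutions, collected -/
noncomputable def clF (l I Q : ℕ) (g : FS → Bool) : Bool :=
  @Nat.rec (fun _ => FS → Bool) g (fun a ih F => mk l a (fun w U x =>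
    clH l I Q U x 2 w (fun S => ih (FS.cons w S F)))) l FS.nil

/-- the search for classes modulo 37 in a window -/
noncomputable def wOKf (n0 n : ℕ) : Bool :=
  clF mk 3 I3 Q3 (fun F3 => clF mk 5 I5 Q5 (fun F5 => clF mk 7 I7 Q7 (fun F7 =>
  clF mk 13 I13 Q13 (fun F13 => clF mk 19 I19 Q19 (fun F19 => clF mk 61 I61 Q61 (fun F61 =>
  clF mk 73 I73 Q73 (fun F73 => alW n0 n (fun a => mk 37 a
    (fun w37 U x => enH 37 I37 Q37 U x 2 w37
      (fun t37 m37 T37 => w7f ⟨F3, F5, F7, F13, F19, F61, F73⟩ w37 t37 m37 T37))))))))))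

end defs

end Pool.Agent.L0h49.H
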