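import Pool.Agent.L0h49.H.Fam

/-! Soundness of the residue search for the two families. -/

set_option maxRecDepth 100000

namespace Pool.Agent.L0h49.H

open H419R2 Finset
open Pool.Agent.N911 Pool.Agent.L0h49.E

theorem FS.all_mem {F : FS} {f : WL → TS → Bool} (h : F.all f = true) {w : WL} {S : TS}
    (hm : FS.Mem w S F) : f w S = true := by
  induction F with
  | nil => exact hm.elim
  | cons w' S' l ih =>
    have h' : cj (f w' S') (l.all f) = true := h
    have h1 : f w' S' = true ∧ l.all f = true := by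
      cases hb : f w' S' with
      | true =>
        rw [hb] at h'
        exact ⟨rfl, h'⟩
      | false =>
        rw [hb] at h'
        exact absurd h' (by simp [cj])
    rcases hm with ⟨rfl, rfl⟩ | hm
    · exact h1.1
    · exact ih h1.2 hm

/-- what is used about a word and its parameters -/
structure SysF (mk : ℕ → ℕ → (WL → ℕ → ℕ → Bool) → Bool) (v : WL) (t P : ℤ) (m : ℕ) : Prop where
  base : BaseH (t ^ 2 + 4 * P)
  cen : Cen (endF v (f0 t P)) m
  rel : ∀ c : CD, c.OK → c.q ∣ M2n → c.p ∣ M2n → ∀ _ : NeZero c.q,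
    RelE (chi c.q c.p c.T) (snoc v m) t P = 0
  fam : ∀ l : ℕ, l ∈ LPh → ∃ a, a < l ∧ ∃ (w : WL) (U x : ℕ), WE l w v ∧
    (P : ZMod l) * (U : ZMod l) = t * (x : ZMod l) + ((2 : ℕ) : ZMod l) ∧ ∀ k, mk l a k = k w U x
  any : ∀ l a : ℕ, ∃ (w : WL) (U x : ℕ), ∀ k, mk l a k = k w U x

/-- the list contains the actual solution -/
def FS.In (l : ℕ) (v : WL) (t P : ℤ) (m : ℕ) (F : FS) : Prop :=
  ∃ (w : WL) (S : TS), FS.Mem w S F ∧ WE l w v ∧
    TS.Mem (res t l) (res (m : ℤ) l) (trcH l v (f0 t P)) S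

theorem FS.all_in {l : ℕ} {v : WL} {t P : ℤ} {m : ℕ} {F : FS} (hF : FS.In l v t P m F)
    {f : WL → TS → Bool} (h : F.all f = true) : ∃ (w : WL) (S : TS), WE l w v ∧
    TS.Mem (res t l) (res (m : ℤ) l) (trcH l v (f0 t P)) S ∧ f w S = true := by
  obtain ⟨w, S, h1, h2, h3⟩ := hF
  exact ⟨w, S, h2, h3, FS.all_mem h h1⟩

section

variable {mk : ℕ → ℕ → (WL → ℕ → ℕ → Bool) → Bool} {v : WL} {t P : ℤ} {m : ℕ}
  (S : SysF mk v t P m)

include S

theorem clF_sound {l I Q : ℕ} (hl : l ∈ LPh) (hp : l.Prime) (hI : chkI l I = true)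
    (hQ : chkIq l Q = true) {g : FS → Bool} (h : clF mk l I Q g = true) :
    ∃ F, FS.In l v t P m F ∧ g F = true := by
  obtain ⟨a0, ha0, w0, U0, x0, hw0, hlin, hk0⟩ := S.fam l hl
  have key : ∀ (n : ℕ) (F : FS), @Nat.rec (fun _ => FS → Bool) g (fun a ih F => mk l a
      (fun w U x => clH l I Q U x 2 w (fun S => ih (FS.cons w S F)))) n F = true →
      ∃ F', (∀ w S, FS.Mem w S F → FS.Mem w S F') ∧ g F' = true ∧
        (a0 < n → ∃ S, FS.Mem w0 S F' ∧
          TS.Mem (res t l) (res (m : ℤ) l) (trcH l v (f0 t P)) S) := by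
    intro n
    induction n with
    | zero => intro F h; exact ⟨F, fun _ _ h => h, h, fun h => absurd h (by omega)⟩
    | succ n ih =>
      intro F h
      have h' : mk l n (fun w U x => clH l I Q U x 2 w (fun S =>
        @Nat.rec (fun _ => FS → Bool) g (fun a ih F => mk l a
      (fun w U x => clH l I Q U x 2 w (fun S => ih (FS.cons w S F)))) n (FS.cons w S F))) = true := h
      by_cases hn : a0 = n
      · subst hn
        rw [hk0, clH_WE hw0] at h'
        obtain ⟨T, hT, h2⟩ := clH_sound S.base hl hlin hp hI hQ v S.cen h'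
        obtain ⟨F', e, g', -⟩ := ih _ h2
        exact ⟨F', fun w S h => e w S (Or.inr h), g', fun _ => ⟨T, e w0 T (Or.inl ⟨rfl, rfl⟩), hT⟩⟩
      · obtain ⟨w, U, x, hk⟩ := S.any l n
        rw [hk] at h'
        obtain ⟨T, h2⟩ := clH_some h'
        obtain ⟨F', e, g', m'⟩ := ih _ h2
        exact ⟨F', fun w S h => e w S (Or.inr h), g', fun h => m' (by omega)⟩
  obtain ⟨F', -, g', m'⟩ := key l FS.nil h
  obtain ⟨T, h1, h2⟩ := m' ha0
  exact ⟨F', ⟨w0, T, h1, hw0, h2⟩, g'⟩

end

section he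

variable {D : ℤ} (H : BaseH D)

include H

theorem heh_365_0 [NeZero c365_37_0.q] : HE c365_37_0 D
    (fun f => x365 c365_37_0 (7 * res f.A 5) (7 * res f.A 73))
    (fun f => e365 c365_37_0 (ixh 5 f) (ixh 73 f)) :=
  HEh_of c365_37_0_ok (by decide +kernel) H
    (fun f _ => chD_sound (l1 := 5) (e1 := 146) (l2 := 73) (e2 := 220) (by norm_num) (by norm_num)
      (by decide +kernel) f.A)
    (fun f _ => evD_sound c365_37_0_ok (l1 := 5) (e1 := 146) (l2 := 73) (e2 := 220) (by norm_num)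
      (by norm_num) (by decide +kernel) (nBh f) (nCh f))

theorem heh_365_1 [NeZero c365_37_1.q] : HE c365_37_1 D
    (fun f => x365 c365_37_1 (7 * res f.A 5) (7 * res f.A 73))
    (fun f => e365 c365_37_1 (ixh 5 f) (ixh 73 f)) :=
  HEh_of c365_37_1_ok (by decide +kernel) H
    (fun f _ => chD_sound (l1 := 5) (e1 := 146) (l2 := 73) (e2 := 220) (by norm_num) (by norm_num)
      (by decide +kernel) f.A)
    (fun f _ => evD_sound c365_37_1_ok (l1 := 5) (e1 := 146) (l2 := 73) (e2 := 220) (by norm_num)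
      (by norm_num) (by decide +kernel) (nBh f) (nCh f))

theorem heh_305_0 [NeZero c305_13_0.q] : HE c305_13_0 D
    (fun f => x305 c305_13_0 (7 * res f.A 5) (7 * res f.A 61))
    (fun f => e305 c305_13_0 (ixh 5 f) (ixh 61 f)) :=
  HEh_of c305_13_0_ok (by decide +kernel) H
    (fun f _ => chD_sound (l1 := 5) (e1 := 61) (l2 := 61) (e2 := 245) (by norm_num) (by norm_num)
      (by decide +kernel) f.A)
    (fun f _ => evD_sound c305_13_0_ok (l1 := 5) (e1 := 61) (l2 := 61) (e2 := 245) (by norm_num)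
      (by norm_num) (by decide +kernel) (nBh f) (nCh f))

theorem heh_305_1 [NeZero c305_13_1.q] : HE c305_13_1 D
    (fun f => x305 c305_13_1 (7 * res f.A 5) (7 * res f.A 61))
    (fun f => e305 c305_13_1 (ixh 5 f) (ixh 61 f)) :=
  HEh_of c305_13_1_ok (by decide +kernel) H
    (fun f _ => chD_sound (l1 := 5) (e1 := 61) (l2 := 61) (e2 := 245) (by norm_num) (by norm_num)
      (by decide +kernel) f.A)
    (fun f _ => evD_sound c305_13_1_ok (l1 := 5) (e1 := 61) (l2 := 61) (e2 := 245) (by norm_num)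
      (by norm_num) (by decide +kernel) (nBh f) (nCh f))

theorem heh_305_2 [NeZero c305_37_0.q] : HE c305_37_0 D
    (fun f => x305 c305_37_0 (7 * res f.A 5) (7 * res f.A 61))
    (fun f => e305 c305_37_0 (ixh 5 f) (ixh 61 f)) :=
  HEh_of c305_37_0_ok (by decide +kernel) H
    (fun f _ => chD_sound (l1 := 5) (e1 := 61) (l2 := 61) (e2 := 245) (by norm_num) (by norm_num)
      (by decide +kernel) f.A)
    (fun f _ => evD_sound c305_37_0_ok (l1 := 5) (e1 := 61) (l2 := 61) (e2 := 245) (by norm_num)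
      (by norm_num) (by decide +kernel) (nBh f) (nCh f))

end he

theorem rm {l : ℕ} (h : 0 < l) (m : ℕ) : ((res (m : ℤ) l : ℕ) : ZMod l) = (m : ZMod l) := by
  have := res_cast' (m : ℤ) h
  exact_mod_cast this

section stages

variable {mk : ℕ → ℕ → (WL → ℕ → ℕ → Bool) → Bool} {v : WL} {t P : ℤ} {m : ℕ}
  (S : SysF mk v t P m) {L : LF}

/-- all lists are right -/
structure LF.OK (v : WL) (t P : ℤ) (m : ℕ) (L : LF) : Prop where
  h3 : FS.In 3 v t P m L.F3
  h5 : FS.In 5 v t P m L.F5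
  h7 : FS.In 7 v t P m L.F7
  h13 : FS.In 13 v t P m L.F13
  h19 : FS.In 19 v t P m L.F19
  h61 : FS.In 61 v t P m L.F61
  h73 : FS.In 73 v t P m L.F73

variable (hL : LF.OK v t P m L)

include S hL

theorem w61f_sound {w13 w37 : WL} (q13 : WE 13 w13 v) (q37 : WE 37 w37 v)
    (h : w61f L w13 (res t 13) (res (m : ℤ) 13) (trcH 13 v (f0 t P)) w37 (res t 37)
      (res (m : ℤ) 37) (trcH 37 v (f0 t P)) (trcH 5 v (f0 t P)) = true) : False := by
  have i1 : NeZero c481_61.q := ⟨by decide +kernel⟩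
  have i2 : NeZero c305_13_0.q := ⟨by decide +kernel⟩
  have i3 : NeZero c305_13_1.q := ⟨by decide +kernel⟩
  have i4 : NeZero c305_37_0.q := ⟨by decide +kernel⟩
  unfold w61f at h
  obtain ⟨w, S', q61, hS, h⟩ := FS.all_in hL.h61 h
  obtain ⟨K, c', d, e, h⟩ := co2hW (heh_481 S.base) S.cen
    (S.rel c481_61 c481_61_ok (by decide +kernel) (by decide +kernel) i1) q61 h
  have h1 := TS.all_mem h hS
  have h2 := imp_true h1 (ln3_sound e (res_cast' t (by norm_num)) (rm (by norm_num) m))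
  have h3 := imp_true h2 (ck2hW (heh_305_0 S.base) S.cen
    (S.rel c305_13_0 c305_13_0_ok (by decide +kernel) (by decide +kernel) i2) rfl q13
    (res_cast' t (by norm_num)) (rm (by norm_num) m))
  have h4 := imp_true h3 (ck2hW (heh_305_1 S.base) S.cen
    (S.rel c305_13_1 c305_13_1_ok (by decide +kernel) (by decide +kernel) i3) rfl q13
    (res_cast' t (by norm_num)) (rm (by norm_num) m))
  have h5 := imp_true h4 (ck2hW (heh_305_2 S.base) S.cen
    (S.rel c305_37_0 c305_37_0_ok (by decide +kernel) (by decide +kernel) i4) rfl q37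
    (res_cast' t (by norm_num)) (rm (by norm_num) m))
  exact absurd h5 (by simp)

theorem w73f_sound {w13 w37 : WL} (q13 : WE 13 w13 v) (q37 : WE 37 w37 v)
    (h : w73f L w13 (res t 13) (res (m : ℤ) 13) (trcH 13 v (f0 t P)) w37 (res t 37)
      (res (m : ℤ) 37) (trcH 37 v (f0 t P)) (trcH 7 v (f0 t P)) (trcH 19 v (f0 t P))
      (trcH 5 v (f0 t P)) = true) : False := by
  have i1 : NeZero c133_73.q := ⟨by decide +kernel⟩
  have i2 : NeZero c365_37_0.q := ⟨by decide +kernel⟩
  have i3 : NeZero c365_37_1.q := ⟨by decide +kernel⟩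
  unfold w73f at h
  obtain ⟨w, S', q73, hS, h⟩ := FS.all_in hL.h73 h
  obtain ⟨K, c', d, e, h⟩ := co2hW (heh_133_73 S.base) S.cen
    (S.rel c133_73 c133_73_ok (by decide +kernel) (by decide +kernel) i1) q73 h
  have h1 := TS.all_mem h hS
  have h2 := imp_true h1 (ln3_sound e (res_cast' t (by norm_num)) (rm (by norm_num) m))
  have h3 := imp_true h2 (ck2hW (heh_365_0 S.base) S.cen
    (S.rel c365_37_0 c365_37_0_ok (by decide +kernel) (by decide +kernel) i2) rfl q37
    (res_cast' t (by norm_num)) (rm (by norm_num) m))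
  have h4 := imp_true h3 (ck2hW (heh_365_1 S.base) S.cen
    (S.rel c365_37_1 c365_37_1_ok (by decide +kernel) (by decide +kernel) i3) rfl q37
    (res_cast' t (by norm_num)) (rm (by norm_num) m))
  exact w61f_sound S hL q13 q37 h4

theorem w13f_sound {w37 : WL} (q37 : WE 37 w37 v)
    (h : w13f L w37 (res t 37) (res (m : ℤ) 37) (trcH 37 v (f0 t P))
      (trcH 7 v (f0 t P)) (trcH 19 v (f0 t P)) (trcH 3 v (f0 t P)) (trcH 5 v (f0 t P)) = true) :
    False := by
  have i1 : NeZero c95_13.q := ⟨by decide +kernel⟩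
  have i2 : NeZero c105_13.q := ⟨by decide +kernel⟩
  have i3 : NeZero c185_13.q := ⟨by decide +kernel⟩
  have i4 : NeZero c133_13.q := ⟨by decide +kernel⟩
  have i5 : NeZero c91_37.q := ⟨by decide +kernel⟩
  unfold w13f at h
  obtain ⟨w, S', q13, hS, h⟩ := FS.all_in hL.h13 h
  have ht := res_cast' t (show 0 < 13 by norm_num)
  have hm := rm (show 0 < 13 by norm_num) m
  obtain ⟨K, c', d, e, h⟩ := co2hW (heh_95 S.base) S.cen
    (S.rel c95_13 c95_13_ok (by decide +kernel) (by decide +kernel) i1) q13 h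
  have h := imp_true (TS.all_mem h hS) (ln3_sound e ht hm)
  obtain ⟨K1, c1, d1, e1, h⟩ := co3hW (heh_105 S.base) S.cen
    (S.rel c105_13 c105_13_ok (by decide +kernel) (by decide +kernel) i2) q13 h
  have h := imp_true h (ln3_sound e1 ht hm)
  obtain ⟨K2, c2, d2, e2, h⟩ := co2hW (heh_185 S.base) S.cen
    (S.rel c185_13 c185_13_ok (by decide +kernel) (by decide +kernel) i3) q13 h
  have h := imp_true h (ln3_sound e2 ht hm)
  obtain ⟨K3, c3, d3, e3, h⟩ := co2hW (heh_133_13 S.base) S.cen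
    (S.rel c133_13 c133_13_ok (by decide +kernel) (by decide +kernel) i4) q13 h
  have h := imp_true h (ln3_sound e3 ht hm)
  have h := imp_true h (ck2hW (heh_91 S.base) S.cen
    (S.rel c91_37 c91_37_ok (by decide +kernel) (by decide +kernel) i5) rfl q37
    (res_cast' t (show 0 < 37 by norm_num)) (rm (by norm_num) m))
  exact w73f_sound S hL q13 q37 h

theorem w3f_sound {w37 w19 : WL} (q37 : WE 37 w37 v) (q19 : WE 19 w19 v)
    (h : w3f L w37 (res t 37) (res (m : ℤ) 37) (trcH 37 v (f0 t P))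
      (trcH 7 v (f0 t P)) w19 (res t 19) (res (m : ℤ) 19) (trcH 19 v (f0 t P)) = true) :
    False := by
  have i1 : NeZero c111_19_0.q := ⟨by decide +kernel⟩
  have i2 : NeZero c111_19_1.q := ⟨by decide +kernel⟩
  unfold w3f at h
  obtain ⟨w, S', -, hS, h⟩ := FS.all_in hL.h3 h
  have ht := res_cast' t (show 0 < 19 by norm_num)
  have hm := rm (show 0 < 19 by norm_num) m
  have h := imp_true (TS.all_mem h hS) (ck2hW (heh_111_0 S.base) S.cen
    (S.rel c111_19_0 c111_19_0_ok (by decide +kernel) (by decide +kernel) i1) rfl q19 ht hm)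
  have h := imp_true h (ck2hW (heh_111_1 S.base) S.cen
    (S.rel c111_19_1 c111_19_1_ok (by decide +kernel) (by decide +kernel) i2) rfl q19 ht hm)
  obtain ⟨w5, S5, -, hS5, h⟩ := FS.all_in hL.h5 h
  exact w13f_sound S hL q37 (TS.all_mem h hS5)

theorem w7f_sound {w37 : WL} (q37 : WE 37 w37 v)
    (h : w7f L w37 (res t 37) (res (m : ℤ) 37) (trcH 37 v (f0 t P)) = true) : False := by
  have i1 : NeZero c259_19_0.q := ⟨by decide +kernel⟩
  have i2 : NeZero c259_19_1.q := ⟨by decide +kernel⟩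
  have i3 : NeZero c259_19_2.q := ⟨by decide +kernel⟩
  have i4 : NeZero c133_37.q := ⟨by decide +kernel⟩
  unfold w7f at h
  rw [mapT_eq] at h
  obtain ⟨w7, S7, q7, m7, h⟩ := FS.all_in hL.h7 h
  have h := imp_true (TS.all_mem h m7) (ck0hW (heh_259_2 S.base) S.cen
    (S.rel c259_19_2 c259_19_2_ok (by decide +kernel) (by decide +kernel) i3) rfl q7 (by decide))
  obtain ⟨w19, S19, q19, m19, h⟩ := FS.all_in hL.h19 h
  have ht := res_cast' t (show 0 < 19 by norm_num)
  have hm := rm (show 0 < 19 by norm_num) m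
  obtain ⟨K, c', d, e, h⟩ := co2hW (heh_259_0 S.base) S.cen
    (S.rel c259_19_0 c259_19_0_ok (by decide +kernel) (by decide +kernel) i1) q19 h
  have h := imp_true (TS.all_mem h m19) (ln3_sound e ht hm)
  obtain ⟨K1, c1, d1, e1, h⟩ := co2hW (heh_259_1 S.base) S.cen
    (S.rel c259_19_1 c259_19_1_ok (by decide +kernel) (by decide +kernel) i2) q19 h
  have h := imp_true h (ln3_sound e1 ht hm)
  have h := imp_true h (ck2hW (heh_133_37 S.base) S.cen
    (S.rel c133_37 c133_37_ok (by decide +kernel) (by decide +kernel) i4) rfl q37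
    (res_cast' t (show 0 < 37 by norm_num)) (rm (by norm_num) m))
  exact w3f_sound S hL q37 q19 h

end stages

theorem alW_true {n0 n : ℕ} {f : ℕ → Bool} (h : alW n0 n f = true) {a : ℕ} (h0 : n0 ≤ a)
    (h1 : a < n0 + n) : f a = true := by
  unfold alW at h
  rw [allN_iff] at h
  have h2 := h (a - n0) (by omega)
  rw [force_eq] at h2
  have e : Nat.add n0 (a - n0) = a := by
    change n0 + (a - n0) = a
    omega
  rw [e] at h2
  exact h2

section

variable {mk : ℕ → ℕ → (WL → ℕ → ℕ → Bool) → Bool} {v : WL} {t P : ℤ} {m : ℕ}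
  (S : SysF mk v t P m)

include S

/-- the residue search for a family is sound -/
theorem wOKf_sound (h : ∀ a, a < 37 → ∃ n0 n, n0 ≤ a ∧ a < n0 + n ∧ wOKf mk n0 n = true) :
    False := by
  obtain ⟨a0, ha0, w0, U0, x0, hw0, hlin, hk0⟩ := S.fam 37 k37
  obtain ⟨n0, n, hn0, hn1, h⟩ := h a0 ha0
  unfold wOKf at h
  obtain ⟨F3, h3, h⟩ := clF_sound S k3 (by norm_num) ci3 iq3 h
  obtain ⟨F5, h5, h⟩ := clF_sound S k5 (by norm_num) ci5 iq5 h
  obtain ⟨F7, h7, h⟩ := clF_sound S k7 (by norm_num) ci7 iq7 h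
  obtain ⟨F13, h13, h⟩ := clF_sound S k13 (by norm_num) ci13 iq13 h
  obtain ⟨F19, h19, h⟩ := clF_sound S k19 (by norm_num) ci19 iq19 h
  obtain ⟨F61, h61, h⟩ := clF_sound S k61 (by norm_num) ci61 iq61 h
  obtain ⟨F73, h73, h⟩ := clF_sound S k73 (by norm_num) ci73 iq73 h
  have h := alW_true h hn0 hn1
  rw [hk0, enH_WE hw0] at h
  have h := enH_sound S.base k37 hlin (by norm_num) ci37 iq37 v S.cen h
  exact w7f_sound S ⟨h3, h5, h7, h13, h19, h61, h73⟩ hw0 h

end

end Pool.Agent.L0h49.H
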