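import Pool.Agent.N911.C1

/-! Odd periods and norm `-1`. -/

set_option autoImplicit false

namespace Pool.Agent.L0h49.H

open Pool.Agent.N911

theorem iter_mat {α : ℝ} (hirr : Irrational α) (n : ℕ) :
    Irrational (nextQ^[n + 1] α) ∧ 1 < nextQ^[n + 1] α ∧
    ∃ A B C D : ℤ, A * D - B * C = (-1) ^ n ∧
      nextQ α * (C * nextQ^[n + 1] α + D) = A * nextQ^[n + 1] α + B := by
  induction n with
  | zero =>
    obtain ⟨i1, g1, -⟩ := nextQ_spec hirr
    refine ⟨i1, g1, 1, 0, 0, 1, by norm_num, ?_⟩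
    change nextQ α * (((0 : ℤ) : ℝ) * nextQ α + ((1 : ℤ) : ℝ)) = ((1 : ℤ) : ℝ) * nextQ α + ((0 : ℤ) : ℝ)
    push_cast
    ring
  | succ n ih =>
    obtain ⟨i, g, A, B, C, D, hdet, h⟩ := ih
    have e : nextQ^[n + 1 + 1] α = nextQ (nextQ^[n + 1] α) := Function.iterate_succ_apply' _ _ _
    rw [e]
    generalize nextQ^[n + 1] α = y at i g h
    obtain ⟨i1, g1, e0⟩ := nextQ_spec i
    refine ⟨i1, g1, A * ⌊y⌋ + B, A, C * ⌊y⌋ + D, C, ?_, ?_⟩
    · rw [pow_succ, ← hdet]
      ring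
    · have hne : nextQ y ≠ 0 := by positivity
      have e1 : (y - ⌊y⌋) * nextQ y = 1 := by
        have : y - ⌊y⌋ = (nextQ y)⁻¹ := by linarith
        rw [this]
        exact inv_mul_cancel₀ hne
      generalize nextQ y = w at e1
      generalize ((⌊y⌋ : ℤ)) = a at e1 ⊢
      push_cast
      linear_combination w * h + (A - C * nextQ α) * e1

/-- odd periods give norm `-1` -/
theorem t_ODD (α : ℝ) (t P : ℤ) (hα : α ^ 2 = t * α + P) (hirr : Irrational α) (ht : 0 < t)
    (h1 : (t : ℝ) < α) (h2 : α < t + 1) (l : ℕ) (hl : l % 2 = 1)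
    (hper : nextQ^[l + 1] α = nextQ α) : ∃ X Y : ℤ, X ^ 2 + t * X * Y - P * Y ^ 2 = -1 := by
  have ht' : (0 : ℝ) < t := by exact_mod_cast ht
  have hfl : ⌊α⌋ = t := by
    rw [Int.floor_eq_iff]
    exact ⟨h1.le, h2⟩
  obtain ⟨i1, g1, e0⟩ := nextQ_spec hirr
  rw [hfl] at e0
  obtain ⟨-, -, A, B, C, D, hdet, h⟩ := iter_mat hirr l
  rw [hper] at h
  have hodd : ((-1 : ℤ)) ^ l = -1 := Odd.neg_one_pow (Nat.odd_iff.mpr hl)
  rw [hodd] at hdet
  have q1 : (α - t) * nextQ α = 1 := by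
    have p1 : nextQ α ≠ 0 := by positivity
    have : α - t = (nextQ α)⁻¹ := by linarith
    rw [this]; exact inv_mul_cancel₀ p1
  generalize nextQ α = y at i1 g1 h q1
  have q2 : (P : ℝ) * y ^ 2 = t * y + 1 := by
    have e : (P : ℝ) = α * (α - t) := by linear_combination -hα
    rw [e]
    have e3 : α * y = t * y + 1 := by linear_combination q1
    linear_combination (α * y) * q1 + e3
  have hP : (0 : ℝ) < P := by
    have hy : 0 < y ^ 2 := by positivity
    have : 0 < (P : ℝ) * y ^ 2 := by rw [q2]; positivity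
    by_contra hc
    push Not at hc
    have h5 := mul_nonpos_of_nonpos_of_nonneg hc hy.le
    linarith
  have hP' : (P : ℤ) ≠ 0 := by
    intro h0
    rw [h0] at hP
    simp at hP
  have hl0 : ((C * t + P * (D - A) : ℤ) : ℝ) * y + ((C - P * B : ℤ) : ℝ) = 0 := by
    push_cast
    linear_combination P * h - C * q2
  obtain ⟨z1, z2⟩ := lin_zero i1 hl0
  have hC : C = P * B := by linarith
  have hA : A = D + t * B := by
    have : P * (B * t + D - A) = 0 := by
      rw [hC] at z1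
      linear_combination z1
    rcases mul_eq_zero.mp this with h0 | h0
    · exact absurd h0 hP'
    · linarith
  refine ⟨D, B, ?_⟩
  rw [hC, hA] at hdet
  linear_combination hdet

end Pool.Agent.L0h49.H
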