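import Pool.Agent.L0h49.H.Asm2

/-! The fields with period of length six or eight. -/

set_option maxRecDepth 100000

namespace Pool.Agent.L0h49.H

open H419R2 Finset
open Pool.Agent.N911 Pool.Agent.L0h49.E

/-- the fields with period of length six or eight -/
def EvL : List ℕ := [19, 22, 31, 59, 71, 107, 131, 158, 206, 278, 383, 503, 743, 983]

/-- test for words of length two -/
def ck6 (d n : ℕ) : Bool := imp (decide (n * n < d)) (imp (decide (d < (n + 1) * (n + 1)))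
  (allN (2 * n) (fun a => imp (decide (1 ≤ a)) (imp (decide (a * (d - n * n) < 2 * n))
  (allN (2 * n) (fun b => imp (decide (1 ≤ b)) (imp (decide ((d - n * n) *
    ((a * b + 1) * (a * b + 1)) = 2 * n * (b * (a * b + 1)) + b * b + 2))
    (decide (d ∈ EvL)))))))))

theorem ck6_all : LH.all (fun d => allN 64 (fun n => ck6 d n)) = true := by decide +kernel

theorem sharp6 (d : ℕ) (hd : d ∈ LH) (n : ℕ) (hn : n < 64) (h1 : n * n < d)
    (h2 : d < (n + 1) * (n + 1)) (a : ℕ) (ha : a < 2 * n) (ha1 : 1 ≤ a)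
    (h3 : a * (d - n * n) < 2 * n) (b : ℕ) (hb : b < 2 * n) (hb1 : 1 ≤ b)
    (h4 : (d - n * n) * ((a * b + 1) * (a * b + 1)) = 2 * n * (b * (a * b + 1)) + b * b + 2) :
    d ∈ EvL := by
  have h := List.all_eq_true.mp ck6_all d hd
  rw [allN_iff] at h
  have h := h n hn
  unfold ck6 at h
  have h := imp_true (imp_true h (decide_eq_true h1)) (decide_eq_true h2)
  rw [allN_iff] at h
  have h := imp_true (imp_true (h a ha) (decide_eq_true ha1)) (decide_eq_true h3)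
  rw [allN_iff] at h
  have h := imp_true (imp_true (h b hb) (decide_eq_true hb1)) (decide_eq_true h4)
  exact of_decide_eq_true h

/-- test for words of length three -/
def ck8 (d n : ℕ) : Bool := imp (decide (n * n < d)) (imp (decide (d < (n + 1) * (n + 1)))
  (allN (2 * n) (fun a => imp (decide (1 ≤ a)) (imp (decide (a * (d - n * n) < 2 * n))
  (allN (2 * n) (fun b => imp (decide (1 ≤ b)) (imp (decide (b * (2 * n) +
    b * b * (1 + a * (2 * n) - a * a * (d - n * n)) + 2 < (d - n * n) + b * (2 * a * (d - n * n))))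
  (allN (1 + a * (2 * n) - a * a * (d - n * n)) (fun e => imp (decide (1 ≤ e))
    (imp (decide ((d - n * n) * ((a * (b * e + 1) + e) * (a * (b * e + 1) + e)) + 2 =
      2 * n * ((b * e + 1) * (a * (b * e + 1) + e)) + (b * e + 1) * (b * e + 1)))
    (decide (d ∈ EvL))))))))))))

theorem ck8_all : LH.all (fun d => allN 64 (fun n => ck8 d n)) = true := by decide +kernel

theorem sharp8 (d : ℕ) (hd : d ∈ LH) (n : ℕ) (hn : n < 64) (h1 : n * n < d)
    (h2 : d < (n + 1) * (n + 1)) (a : ℕ) (ha : a < 2 * n) (ha1 : 1 ≤ a)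
    (h3 : a * (d - n * n) < 2 * n) (b : ℕ) (hb : b < 2 * n) (hb1 : 1 ≤ b)
    (h5 : b * (2 * n) + b * b * (1 + a * (2 * n) - a * a * (d - n * n)) + 2 <
      (d - n * n) + b * (2 * a * (d - n * n))) (e : ℕ)
    (he : e < 1 + a * (2 * n) - a * a * (d - n * n)) (he1 : 1 ≤ e)
    (h4 : (d - n * n) * ((a * (b * e + 1) + e) * (a * (b * e + 1) + e)) + 2 =
      2 * n * ((b * e + 1) * (a * (b * e + 1) + e)) + (b * e + 1) * (b * e + 1)) :
    d ∈ EvL := by
  have h := List.all_eq_true.mp ck8_all d hd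
  rw [allN_iff] at h
  have h := h n hn
  unfold ck8 at h
  have h := imp_true (imp_true h (decide_eq_true h1)) (decide_eq_true h2)
  rw [allN_iff] at h
  have h := imp_true (imp_true (h a ha) (decide_eq_true ha1)) (decide_eq_true h3)
  rw [allN_iff] at h
  have h := imp_true (imp_true (h b hb) (decide_eq_true hb1)) (decide_eq_true h5)
  rw [allN_iff] at h
  have h := imp_true (imp_true (h e he) (decide_eq_true he1)) (decide_eq_true h4)
  exact of_decide_eq_true h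

theorem LH_lt : ∀ d ∈ LH, d < 64 * 64 := by decide +kernel

/-- words of length two -/
theorem sh2 {d n P a b : ℕ} (hd : d ∈ LH) (hdn : d = n * n + P) (hP0 : 0 < P) (hPn : P ≤ 2 * n)
    (ha : 0 < a) (hb : 0 < b)
    (g2 : (1 : ℤ) < 1 + a * (2 * n) - (a : ℤ) ^ 2 * P)
    (hC : ((a * b + 1 : ℕ) : ℤ) * ((P : ℤ) * (a * b + 1) - 2 * n * b) - (b : ℤ) ^ 2 = 2) :
    d ∈ EvL := by
  have hlt := LH_lt d hd
  have hn : n < 64 := by
    by_contra hc
    have h3 : 64 * 64 ≤ n * n := Nat.mul_le_mul (by omega) (by omega)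
    omega
  have ha' : (1 : ℤ) ≤ a := by exact_mod_cast ha
  have hb' : (1 : ℤ) ≤ b := by exact_mod_cast hb
  have hP' : (1 : ℤ) ≤ P := by exact_mod_cast hP0
  have hPn' : (P : ℤ) ≤ 2 * n := by exact_mod_cast hPn
  have haP : (a : ℤ) * P < 2 * n := by
    by_contra hc
    push Not at hc
    nlinarith
  have haP' : a * P < 2 * n := by exact_mod_cast haP
  have han : a < 2 * n := by
    have : a * 1 ≤ a * P := Nat.mul_le_mul_left _ hP0
    omega
  have hbt : (b : ℤ) < 2 * n := by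
    have e : (b : ℤ) ^ 2 * (1 + a * (2 * n) - (a : ℤ) ^ 2 * P) = P - 2 + b * (2 * (a * P) - 2 * n) := by
      push_cast at hC
      linear_combination -hC
    have h3 : (b : ℤ) ^ 2 * 2 ≤ (b : ℤ) ^ 2 * (1 + a * (2 * n) - (a : ℤ) ^ 2 * P) :=
      mul_le_mul_of_nonneg_left (by linarith) (by positivity)
    have h4 : (b : ℤ) * (2 * (a * P) - 2 * n) ≤ b * (2 * n - 2) :=
      mul_le_mul_of_nonneg_left (by linarith) (by linarith)
    by_contra hc
    push Not at hc
    nlinarith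
  have hbt' : b < 2 * n := by exact_mod_cast hbt
  have hdP : d - n * n = P := by omega
  refine sharp6 d hd n hn (by omega) (by have : (n + 1) * (n + 1) = n * n + 2 * n + 1 := by ring
                                         omega) a han ha (by rw [hdP]; exact haP') b hbt' hb ?_
  rw [hdP]
  have : ((P * ((a * b + 1) * (a * b + 1)) : ℕ) : ℤ) =
      ((2 * n * (b * (a * b + 1)) + b * b + 2 : ℕ) : ℤ) := by
    push_cast at hC ⊢
    linear_combination hC
  exact_mod_cast this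

/-- words of length three -/
theorem sh3 {d n P a b e : ℕ} (hd : d ∈ LH) (hdn : d = n * n + P) (hP0 : 0 < P)
    (hPn : P ≤ 2 * n) (ha : 0 < a) (hb : 0 < b) (he : 0 < e)
    (g2 : (2 : ℤ) < 1 + a * (2 * n) - (a : ℤ) ^ 2 * P)
    (g3 : (2 : ℤ) < P + b * (2 * a * P - 2 * n) - (b : ℤ) ^ 2 * (1 + a * (2 * n) - (a : ℤ) ^ 2 * P))
    (g4 : (1 + a * (2 * n) - (a : ℤ) ^ 2 * P) + e * (2 * b * (1 + a * (2 * n) - (a : ℤ) ^ 2 * P) -
      (2 * a * P - 2 * n)) - (e : ℤ) ^ 2 *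
        (P + b * (2 * a * P - 2 * n) - (b : ℤ) ^ 2 * (1 + a * (2 * n) - (a : ℤ) ^ 2 * P)) = 2)
    (hC : ((a * (b * e + 1) + e : ℕ) : ℤ) * ((P : ℤ) * (a * (b * e + 1) + e) -
      2 * n * (b * e + 1)) - ((b * e + 1 : ℕ) : ℤ) ^ 2 = -2) : d ∈ EvL := by
  have hlt := LH_lt d hd
  have hn : n < 64 := by
    by_contra hc
    have h3 : 64 * 64 ≤ n * n := Nat.mul_le_mul (by omega) (by omega)
    omega
  have ha' : (1 : ℤ) ≤ a := by exact_mod_cast ha
  have hb' : (1 : ℤ) ≤ b := by exact_mod_cast hb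
  have he' : (1 : ℤ) ≤ e := by exact_mod_cast he
  have hP' : (1 : ℤ) ≤ P := by exact_mod_cast hP0
  have hPn' : (P : ℤ) ≤ 2 * n := by exact_mod_cast hPn
  have haP : (a : ℤ) * P < 2 * n := by
    by_contra hc
    push Not at hc
    nlinarith
  have haP' : a * P < 2 * n := by exact_mod_cast haP
  have han : a < 2 * n := by
    have : a * 1 ≤ a * P := Nat.mul_le_mul_left _ hP0
    omega
  have hbt : (b : ℤ) < 2 * n := by
    have h3 : (b : ℤ) ^ 2 * 2 ≤ (b : ℤ) ^ 2 * (1 + a * (2 * n) - (a : ℤ) ^ 2 * P) :=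
      mul_le_mul_of_nonneg_left (by linarith) (by positivity)
    have h4 : (b : ℤ) * (2 * a * P - 2 * n) ≤ b * (2 * n - 2) :=
      mul_le_mul_of_nonneg_left (by linarith) (by linarith)
    by_contra hc
    push Not at hc
    nlinarith
  have hbt' : b < 2 * n := by exact_mod_cast hbt
  have hdP : d - n * n = P := by omega
  obtain ⟨A2, hA2⟩ : ∃ A2 : ℕ, (A2 : ℤ) = 1 + a * (2 * n) - (a : ℤ) ^ 2 * P :=
    ⟨(1 + a * (2 * n) - (a : ℤ) ^ 2 * P).toNat, by omega⟩
  have hA2n : 1 + a * (2 * n) - a * a * P = A2 := by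
    have : ((1 + a * (2 * n) : ℕ) : ℤ) = ((A2 + a * a * P : ℕ) : ℤ) := by
      push_cast
      rw [hA2]
      ring
    have : 1 + a * (2 * n) = A2 + a * a * P := by exact_mod_cast this
    omega
  have he2 : (e : ℤ) < A2 := by
    rw [hA2]
    have hw : (e : ℤ) * (e * (P + b * (2 * a * P - 2 * n) -
        (b : ℤ) ^ 2 * (1 + a * (2 * n) - (a : ℤ) ^ 2 * P)) -
        (2 * b * (1 + a * (2 * n) - (a : ℤ) ^ 2 * P) - (2 * a * P - 2 * n))) =
        (1 + a * (2 * n) - (a : ℤ) ^ 2 * P) - 2 := by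
      linear_combination -g4
    generalize (e : ℤ) * (P + b * (2 * a * P - 2 * n) -
        (b : ℤ) ^ 2 * (1 + a * (2 * n) - (a : ℤ) ^ 2 * P)) -
        (2 * b * (1 + a * (2 * n) - (a : ℤ) ^ 2 * P) - (2 * a * P - 2 * n)) = w at hw
    have hw1 : 1 ≤ w := by
      by_contra hc
      have hw0 : w ≤ 0 := by omega
      have := mul_nonpos_of_nonneg_of_nonpos (show (0 : ℤ) ≤ e by linarith) hw0
      linarith
    have : (e : ℤ) * 1 ≤ e * w := mul_le_mul_of_nonneg_left hw1 (by linarith)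
    linarith
  have he2' : e < A2 := by exact_mod_cast he2
  refine sharp8 d hd n hn (by omega) (by have : (n + 1) * (n + 1) = n * n + 2 * n + 1 := by ring
                                         omega) a han ha (by rw [hdP]; exact haP') b hbt' hb ?_ e
    (by rw [hdP, hA2n]; exact he2') he ?_
  · rw [hdP, hA2n]
    have : ((b * (2 * n) + b * b * A2 + 2 : ℕ) : ℤ) < ((P + b * (2 * a * P) : ℕ) : ℤ) := by
      push_cast
      rw [hA2]
      linarith
    exact_mod_cast this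
  · rw [hdP]
    have : ((P * ((a * (b * e + 1) + e) * (a * (b * e + 1) + e)) + 2 : ℕ) : ℤ) =
        ((2 * n * ((b * e + 1) * (a * (b * e + 1) + e)) + (b * e + 1) * (b * e + 1) : ℕ) : ℤ) := by
      push_cast at hC ⊢
      linear_combination hC
    exact_mod_cast this

section fin

variable {v : WL} {n P d m : ℕ} {K : Type*} [Field K] [NumberField K] {z : K}

/-- half periods of length two or three, with the list -/
theorem word_sharp (hv : v.Pos) (hlen : v.len = 2 ∨ v.len = 3) (hm0 : 0 < m)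
    (hc : (endF v (f0 ((2 * n : ℕ) : ℤ) (P : ℤ))).B =
      m * (endF v (f0 ((2 * n : ℕ) : ℤ) (P : ℤ))).C)
    (hC1 : 1 < (endF v (f0 ((2 * n : ℕ) : ℤ) (P : ℤ))).C)
    (h : ∀ k, 1 ≤ k → k ≤ v.len → 1 < (fs v (f0 ((2 * n : ℕ) : ℤ) (P : ℤ)) k).A)
    (hA2 : ∀ k, 1 ≤ k → k ≤ v.len → (fs v (f0 ((2 * n : ℕ) : ℤ) (P : ℤ)) k).A ≠ 2)
    (hn0 : 0 < n) (hP0 : 0 < P) (hPn : P ≤ 2 * n) (hdn : d = n * n + P)
    (hsf : Squarefree (d : ℤ)) (hd4 : d % 4 = 2 ∨ d % 4 = 3) (hd : 4 ≤ d)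
    (hK : Module.finrank ℚ K = 2) (hz : z ^ 2 = ((d : ℤ) : K))
    (hcl : NumberField.classNumber K = 1) : d ∈ EvL := by
  obtain ⟨hLH, hcen⟩ := word_fin (t := 2 * n) (z := z) hv hlen hm0 hc hC1 h hA2 (by omega)
    (by omega) (by rw [hdn]; ring) hsf hd4 hd hK hz hcl
  have htn : ((2 * n : ℕ) : ℤ) = 2 * (n : ℤ) := by push_cast; ring
  rcases v with _ | ⟨a, _ | ⟨b, _ | ⟨e, _ | ⟨f, w⟩⟩⟩⟩
  · exfalso
    have e0 : WL.nil.len = 0 := rfl
    omega
  · exfalso
    have e0 : (WL.cons a .nil).len = 1 := rfl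
    omega
  · obtain ⟨ha, hb, -⟩ := hv
    have hid := cenC2 hcen.hC
    rw [htn] at hid
    have g2 := h 2 (by omega) le_rfl
    have f2 : (fs (.cons a (.cons b .nil)) (f0 ((2 * n : ℕ) : ℤ) (P : ℤ)) 2).A =
      1 + a * ((2 * n : ℕ) : ℤ) - (a : ℤ) ^ 2 * P := rfl
    rw [f2, htn] at g2
    exact sh2 hLH hdn hP0 hPn ha hb g2 hid
  · obtain ⟨ha, hb, he, -⟩ := hv
    have hid := cenC3 hcen.hC
    rw [htn] at hid
    have g2 := h 2 (by omega) (by change 2 ≤ 3; omega)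
    have g2' := hA2 2 (by omega) (by change 2 ≤ 3; omega)
    have g3 := h 3 (by omega) le_rfl
    have g3' := hA2 3 (by omega) le_rfl
    have f2 : (fs (.cons a (.cons b (.cons e .nil))) (f0 ((2 * n : ℕ) : ℤ) (P : ℤ)) 2).A =
      1 + a * ((2 * n : ℕ) : ℤ) - (a : ℤ) ^ 2 * P := rfl
    have f3 : (fs (.cons a (.cons b (.cons e .nil))) (f0 ((2 * n : ℕ) : ℤ) (P : ℤ)) 3).A =
      P + b * (2 * a * P - ((2 * n : ℕ) : ℤ)) -
        (b : ℤ) ^ 2 * (1 + a * ((2 * n : ℕ) : ℤ) - (a : ℤ) ^ 2 * P) := rfl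
    have f4 : (endF (.cons a (.cons b (.cons e .nil))) (f0 ((2 * n : ℕ) : ℤ) (P : ℤ))).C =
      (1 + a * ((2 * n : ℕ) : ℤ) - (a : ℤ) ^ 2 * P) + e * (2 * b * (1 + a * ((2 * n : ℕ) : ℤ) -
        (a : ℤ) ^ 2 * P) - (2 * a * P - ((2 * n : ℕ) : ℤ))) - (e : ℤ) ^ 2 *
        (P + b * (2 * a * P - ((2 * n : ℕ) : ℤ)) -
        (b : ℤ) ^ 2 * (1 + a * ((2 * n : ℕ) : ℤ) - (a : ℤ) ^ 2 * P)) := rfl
    have g4 := hcen.hC
    rw [f2, htn] at g2 g2'
    rw [f3, htn] at g3 g3'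
    rw [f4, htn] at g4
    exact sh3 hLH hdn hP0 hPn ha hb he (by omega) (by omega) g4 hid
  · exfalso
    have e0 : (WL.cons a (.cons b (.cons e (.cons f w)))).len = w.len + 4 := rfl
    omega

end fin

end Pool.Agent.L0h49.H
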