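import Pool.Agent.L0h49.E.B4
import Pool.Agent.N911.C1

/-!
# Project EVP: class number one, `d ≡ 2, 3 (mod 4)`, periods of length six and eight

Statements of the modules.
-/

set_option autoImplicit false

namespace Pool.Agent.L0h49.H

open Pool.Agent.N911 Pool.Agent.L0h49.E

/-- module CFE: from an even minimal period `2 k` of the continued fraction of `α = (t + √D) / 2`,
`D = t ^ 2 + 4 P`, to the first half `v` of the palindrome and the centre `m` -/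
def S_CFE : Prop := ∀ (α : ℝ) (t P : ℤ), α ^ 2 = t * α + P → Irrational α → 0 < t → (t : ℝ) < α →
  α < t + 1 → ∀ k : ℕ, 2 ≤ k → nextQ^[2 * k + 1] α = nextQ α →
    (∀ j : ℕ, 0 < j → j < 2 * k → nextQ^[j + 1] α ≠ nextQ α) →
    ∃ (v : WL) (m : ℕ), v.Pos ∧ v.len + 1 = k ∧ 0 < m ∧
      (endF v (f0 t P)).B = m * (endF v (f0 t P)).C ∧
      1 < (endF v (f0 t P)).C ∧
      (∀ n, 1 ≤ n → n ≤ v.len → 1 < (fs v (f0 t P) n).A) ∧
      (t % 2 = 0 → ∀ n, 1 ≤ n → n ≤ v.len → (fs v (f0 t P) n).A ≠ 2)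

/-- module AR: the words of length two and three with middle norm two -/
def S_AR : Prop := (∀ (a b : ℕ) (c : ℤ), 0 < a → 0 < b → ((a * b + 1 : ℕ) : ℤ) * c - (b : ℤ) ^ 2 = 2 →
    (b = 2 * a ∧ c = 2) ∨ (a = 2 ∧ b = 1 ∧ c = 1)) ∧
  (∀ (a b e : ℕ) (c : ℤ), 0 < a → 0 < b → 0 < e →
    ((a * (b * e + 1) + e : ℕ) : ℤ) * c - ((b * e + 1 : ℕ) : ℤ) ^ 2 = -2 →
    (b = 1 ∧ e = 2 * a + 1 ∧ c = 2) ∨ (a = 2 ∧ b = 2 ∧ e = 1 ∧ c = 1))

end Pool.Agent.L0h49.H
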