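import Pool.Agent.L0h49.E.B3
import Pool.Agent.N911.D3

/-! Words known modulo a prime only: the search functions depend on the word modulo `l`. -/

set_option maxRecDepth 100000

namespace Pool.Agent.L0h49.H

open H419R2 Finset
open Pool.Agent.N911 Pool.Agent.L0h49.E

/-- words congruent modulo `l` -/
def WE (l : ℕ) : WL → WL → Prop
  | .nil, .nil => True
  | .cons a w, .cons b v => a % l = b % l ∧ WE l w v
  | .nil, .cons _ _ => False
  | .cons _ _, .nil => False

theorem castWE {l a b : ℕ} (h : a % l = b % l) : (a : ZMod l) = b :=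
  (ZMod.natCast_eq_natCast_iff' a b l).mpr h

theorem WE.refl (l : ℕ) (w : WL) : WE l w w := by
  induction w with
  | nil => trivial
  | cons a w ih => exact ⟨rfl, ih⟩

theorem mkH_WE {l I : ℕ} {w v : WL} (h : WE l w v) (c B C : ℕ) (g : ℕ → TL → Bool) :
    mkH l I w c B C g = mkH l I v c B C g := by
  induction w generalizing v c B C g with
  | nil =>
    cases v with
    | nil => rfl
    | cons b v => exact h.elim
  | cons a w ih =>
    cases v with
    | nil => exact h.elim
    | cons b v =>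
      obtain ⟨hab, hwv⟩ := h
      have e : ∀ (a : ℕ) (v : WL), mkH l I (.cons a v) c B C g =
        force (Nat.mul 7 c) (fun q => force (Nat.mul 7 (Nat.add (Nat.mul B l) C)) (fun k =>
        force (look I C) (fun i =>
        force (Nat.mod (Nat.mul c C) l) (fun c' =>
        force (Nat.mod (Nat.mul (Nat.add (Nat.mul (Nat.mul 2 a) C) (Nat.sub l B)) i) l) (fun B' =>
        force (Nat.mod (Nat.mul (Nat.add (Nat.add 1 (Nat.mul a B)) (Nat.mul (Nat.mul a a)
          (Nat.sub l C))) i) l) (fun C' => mkH l I v c' B' C'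
            (fun m r => g m (TL.cons q k r)))))))) := fun _ _ => rfl
      rw [e, e]
      simp only [force_eq]
      have h0 : a ≡ b [MOD l] := hab
      have h1 : Nat.mod (Nat.mul (Nat.add (Nat.mul (Nat.mul 2 a) C) (Nat.sub l B)) (look I C)) l =
          Nat.mod (Nat.mul (Nat.add (Nat.mul (Nat.mul 2 b) C) (Nat.sub l B)) (look I C)) l :=
        Nat.ModEq.mul_right _ (Nat.ModEq.add_right _ (Nat.ModEq.mul_right _
          (Nat.ModEq.mul_left 2 h0)))
      have h2 : Nat.mod (Nat.mul (Nat.add (Nat.add 1 (Nat.mul a B)) (Nat.mul (Nat.mul a a)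
          (Nat.sub l C))) (look I C)) l =
          Nat.mod (Nat.mul (Nat.add (Nat.add 1 (Nat.mul b B)) (Nat.mul (Nat.mul b b)
          (Nat.sub l C))) (look I C)) l :=
        Nat.ModEq.mul_right _ (Nat.ModEq.add (Nat.ModEq.add_left 1 (Nat.ModEq.mul_right _ h0))
          (Nat.ModEq.mul_right _ (Nat.ModEq.mul h0 h0)))
      rw [h1, h2, ih hwv]

theorem tgH_WE {l I Q : ℕ} {w v : WL} (h : WE l w v) : tgH l I Q w = tgH l I Q v := by
  funext t P f
  unfold tgH
  rw [mkH_WE h]

theorem enH_WE {l I Q U x y : ℕ} {w v : WL} (h : WE l w v) (f : ℕ → ℕ → TL → Bool) :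
    enH l I Q U x y w f = enH l I Q U x y v f := by
  unfold enH
  rw [tgH_WE h]

theorem tgS_WE {l I Q : ℕ} {w v : WL} (h : WE l w v) : tgS l I Q w = tgS l I Q v := by
  funext t P S k
  unfold tgS
  rw [mkH_WE h]

theorem clS_WE {l I Q U x y : ℕ} {w v : WL} (h : WE l w v) :
    clS l I Q U x y w = clS l I Q U x y v := by
  funext t k S
  unfold clS
  rw [tgS_WE h]

theorem clH_WE {l I Q U x y : ℕ} {w v : WL} (h : WE l w v) (g : TS → Bool) :
    clH l I Q U x y w g = clH l I Q U x y v g := by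
  unfold clH
  have e : ∀ U x y, clS l I Q U x y w = clS l I Q U x y v := fun U x y => clS_WE h
  simp only [e]

theorem clH_some {l I Q U x y : ℕ} {w : WL} {g : TS → Bool} (h : clH l I Q U x y w g = true) :
    ∃ S, g S = true := by
  unfold clH at h
  rw [force_eq, force_eq, force_eq] at h
  have key : ∀ (n : ℕ) (S : TS),
      @Nat.rec (fun _ => TS → Bool) g (fun t ih S => clS l I Q (Nat.mod U l) (Nat.mod x l)
        (Nat.mod y l) w t ih S) n S = true → ∃ S', g S' = true := by
    intro n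
    induction n with
    | zero => intro S h; exact ⟨S, h⟩
    | succ n ih =>
      intro S h
      obtain ⟨S1, -, k1, -⟩ := clS_ext h
      exact ih S1 k1
  exact key l TS.nil h

theorem R0h_WE {l : ℕ} {w v : WL} (h : WE l w v) : R0h w = R0h v := by
  induction w generalizing v with
  | nil =>
    cases v with
    | nil => rfl
    | cons b v => exact h.elim
  | cons a w ih =>
    cases v with
    | nil => exact h.elim
    | cons b v =>
      have e : ∀ (a : ℕ) (v : WL), R0h (.cons a v) = fun T T' s k => T.hd (fun x e r =>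
        T'.hd (fun q' i' r' => force (Nat.add s (Nat.mul (sl1 x q') (sl1 e i')))
          (fun s => R0h v r r' s k))) := fun _ _ => rfl
      rw [e, e, ih h.2]

section sums

variable {c : CD} [NeZero c.q] {D : ℤ}

theorem R2h_eqW {gx ge : ℕ → ℕ → ℕ} {l1 l2 : ℕ}
    (h : HE c D (fun f => gx (7 * res f.A l1) (7 * res f.A l2)) (fun f => ge (ixh l1 f) (ixh l2 f)))
    {wd v : WL} (hw : WE c.p wd v) {f : Fm} (hf : f.disc = D) (w s : ℕ) :
    ∃ S cm : ℕ, (∀ mm : ZMod c.p, (S : ZMod c.p) + mm * cm =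
      s + WSH (chi c.q c.p c.T) v f (w : ZMod c.p) mm) ∧
      ∀ k, R2h gx ge wd (trcH l1 v f) (trcH l2 v f) w s k = k S cm := by
  induction v generalizing wd f w s with
  | nil =>
    cases wd with
    | cons b wd => exact hw.elim
    | nil =>
    refine ⟨s + gx (7 * res f.A l1) (7 * res f.A l2) *
      (2 * (ge (ixh l1 f) (ixh l2 f) % 128) + w * (ge (ixh l1 f) (ixh l2 f) / 128)),
      gx (7 * res (flip f).A l1) (7 * res (flip f).A l2) *
        (ge (ixh l1 (flip f)) (ixh l2 (flip f)) / 128), ?_, ?_⟩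
    · intro mm
      rw [WSH_nil]
      have h1 := h.hx f hf
      have h2 := h.hy f hf
      have h3 := h.hy (flip f) (by rw [flip_disc]; exact hf)
      rw [Nat.cast_add, Nat.cast_mul, Nat.cast_add, Nat.cast_mul, Nat.cast_mul, Nat.cast_mul, ← h2,
        ← h3]
      push_cast
      linear_combination 2 * h1
    · intro k
      have e : R2h gx ge .nil (trcH l1 .nil f) (trcH l2 .nil f) w s k =
        force (ge (ixh l1 f) (ixh l2 f)) (fun e => force (Nat.add s (Nat.mul
          (gx (7 * res f.A l1) (7 * res f.A l2))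
        (Nat.add (Nat.mul 2 (Nat.mod e 128)) (Nat.mul w (Nat.div e 128))))) (fun s =>
        force (ge (ixh l1 (flip f)) (ixh l2 (flip f))) (fun e2 => force (Nat.mul
          (gx (7 * res (flip f).A l1) (7 * res (flip f).A l2)) (Nat.div e2 128))
          (fun cm => k s cm)))) := rfl
      rw [e, force_eq, force_eq, force_eq, force_eq]
      rfl
  | cons a v ih =>
    cases wd with
    | nil => exact hw.elim
    | cons b wd =>
    obtain ⟨S, cm, hS, hk⟩ := ih hw.2 (f := f.step a) (by rw [Fm.disc_step]; exact hf) (4 * b)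
      (s + gx (7 * res f.A l1) (7 * res f.A l2) *
      (2 * (ge (ixh l1 f) (ixh l2 f) % 128) + w * (ge (ixh l1 f) (ixh l2 f) / 128)))
    refine ⟨S, cm, ?_, ?_⟩
    · intro mm
      rw [hS mm]
      rw [WSH_cons]
      have h1 := h.hx f hf
      have h2 := h.hy f hf
      rw [Nat.cast_add, Nat.cast_mul, Nat.cast_add, Nat.cast_mul, Nat.cast_mul, Nat.cast_mul, ← h2]
      push_cast
      rw [castWE hw.1]
      linear_combination 2 * h1
    · intro k
      have e : R2h gx ge (.cons b wd) (trcH l1 (.cons a v) f) (trcH l2 (.cons a v) f) w s k =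
        force (ge (ixh l1 f) (ixh l2 f)) (fun e => force (Nat.add s (Nat.mul
          (gx (7 * res f.A l1) (7 * res f.A l2))
        (Nat.add (Nat.mul 2 (Nat.mod e 128)) (Nat.mul w (Nat.div e 128)))))
        (fun s => R2h gx ge wd (trcH l1 v (f.step a)) (trcH l2 v (f.step a))
          (Nat.mul 4 b) s k)) := rfl
      rw [e, force_eq, force_eq]
      exact hk k

theorem R3h_eqW {gx ge : ℕ → ℕ → ℕ → ℕ} {l1 l2 l3 : ℕ}
    (h : HE c D (fun f => gx (7 * res f.A l1) (7 * res f.A l2) (7 * res f.A l3))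
      (fun f => ge (ixh l1 f) (ixh l2 f) (ixh l3 f)))
    {wd v : WL} (hw : WE c.p wd v) {f : Fm} (hf : f.disc = D) (w s : ℕ) :
    ∃ S cm : ℕ, (∀ mm : ZMod c.p, (S : ZMod c.p) + mm * cm =
      s + WSH (chi c.q c.p c.T) v f (w : ZMod c.p) mm) ∧
      ∀ k, R3h gx ge wd (trcH l1 v f) (trcH l2 v f) (trcH l3 v f) w s k = k S cm := by
  induction v generalizing wd f w s with
  | nil =>
    cases wd with
    | cons b wd => exact hw.elim
    | nil =>
    refine ⟨s + gx (7 * res f.A l1) (7 * res f.A l2) (7 * res f.A l3) *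
      (2 * (ge (ixh l1 f) (ixh l2 f) (ixh l3 f) % 128) +
        w * (ge (ixh l1 f) (ixh l2 f) (ixh l3 f) / 128)),
      gx (7 * res (flip f).A l1) (7 * res (flip f).A l2) (7 * res (flip f).A l3) *
        (ge (ixh l1 (flip f)) (ixh l2 (flip f)) (ixh l3 (flip f)) / 128), ?_, ?_⟩
    · intro mm
      rw [WSH_nil]
      have h1 := h.hx f hf
      have h2 := h.hy f hf
      have h3 := h.hy (flip f) (by rw [flip_disc]; exact hf)
      rw [Nat.cast_add, Nat.cast_mul, Nat.cast_add, Nat.cast_mul, Nat.cast_mul, Nat.cast_mul, ← h2,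
        ← h3]
      push_cast
      linear_combination 2 * h1
    · intro k
      have e : R3h gx ge .nil (trcH l1 .nil f) (trcH l2 .nil f) (trcH l3 .nil f) w s k =
        force (ge (ixh l1 f) (ixh l2 f) (ixh l3 f)) (fun e => force (Nat.add s (Nat.mul
          (gx (7 * res f.A l1) (7 * res f.A l2) (7 * res f.A l3))
        (Nat.add (Nat.mul 2 (Nat.mod e 128)) (Nat.mul w (Nat.div e 128))))) (fun s =>
        force (ge (ixh l1 (flip f)) (ixh l2 (flip f)) (ixh l3 (flip f))) (fun e2 => force (Nat.mul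
          (gx (7 * res (flip f).A l1) (7 * res (flip f).A l2) (7 * res (flip f).A l3))
            (Nat.div e2 128))
          (fun cm => k s cm)))) := rfl
      rw [e, force_eq, force_eq, force_eq, force_eq]
      rfl
  | cons a v ih =>
    cases wd with
    | nil => exact hw.elim
    | cons b wd =>
    obtain ⟨S, cm, hS, hk⟩ := ih hw.2 (f := f.step a) (by rw [Fm.disc_step]; exact hf) (4 * b)
      (s + gx (7 * res f.A l1) (7 * res f.A l2) (7 * res f.A l3) *
      (2 * (ge (ixh l1 f) (ixh l2 f) (ixh l3 f) % 128) +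
        w * (ge (ixh l1 f) (ixh l2 f) (ixh l3 f) / 128)))
    refine ⟨S, cm, ?_, ?_⟩
    · intro mm
      rw [hS mm]
      rw [WSH_cons]
      have h1 := h.hx f hf
      have h2 := h.hy f hf
      rw [Nat.cast_add, Nat.cast_mul, Nat.cast_add, Nat.cast_mul, Nat.cast_mul, Nat.cast_mul, ← h2]
      push_cast
      rw [castWE hw.1]
      linear_combination 2 * h1
    · intro k
      have e : R3h gx ge (.cons b wd) (trcH l1 (.cons a v) f) (trcH l2 (.cons a v) f)
          (trcH l3 (.cons a v) f) w s k =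
        force (ge (ixh l1 f) (ixh l2 f) (ixh l3 f)) (fun e => force (Nat.add s (Nat.mul
          (gx (7 * res f.A l1) (7 * res f.A l2) (7 * res f.A l3))
        (Nat.add (Nat.mul 2 (Nat.mod e 128)) (Nat.mul w (Nat.div e 128)))))
        (fun s => R3h gx ge wd (trcH l1 v (f.step a)) (trcH l2 v (f.step a)) (trcH l3 v (f.step a))
          (Nat.mul 4 b) s k)) := rfl
      rw [e, force_eq, force_eq]
      exact hk k

variable {t P : ℤ} {m : ℕ} {wd v : WL}

theorem ck2hW {gx ge : ℕ → ℕ → ℕ} {l1 l2 : ℕ}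
    (h : HE c (t ^ 2 + 4 * P) (fun f => gx (7 * res f.A l1) (7 * res f.A l2))
      (fun f => ge (ixh l1 f) (ixh l2 f)))
    (hc : Cen (endF v (f0 t P)) m)
    (hR : RelE (chi c.q c.p c.T) (snoc v m) t P = 0) {p tt mt : ℕ} (hp : c.p = p)
    (hw : WE p wd v) (ht : (tt : ZMod p) = t) (hm : (mt : ZMod p) = m) :
    ck2h p gx ge wd (trcH l1 v (f0 t P)) (trcH l2 v (f0 t P)) tt mt = true := by
  subst hp
  obtain ⟨S, cm, hS, hk⟩ := R2h_eqW h hw (f0_disc t P) (Nat.mul 2 tt) 0
  unfold ck2h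
  rw [hk]
  apply beq_mod
  have e := hS (2 * (m : ZMod c.p))
  rw [nmul, Nat.cast_mul, ht, Nat.cast_zero, zero_add] at e
  have e2 := relH_two hc hR
  push_cast at e
  rw [e2] at e
  change ((S + 2 * mt * cm : ℕ) : ZMod c.p) = 0
  push_cast
  rw [hm]
  exact e

theorem ck0hW {X0 E0 : ℕ → ℕ} {l1 l2 : ℕ}
    (h : HE c (t ^ 2 + 4 * P) (fun f => sl1 (X0 (7 * res f.A l1)) (7 * res f.A l2))
      (fun f => sl1 (E0 (ixh l1 f)) (ixh l2 f)))
    (hc : Cen (endF v (f0 t P)) m)
    (hR : RelE (chi c.q c.p c.T) (snoc v m) t P = 0) {p l : ℕ} (hp : c.p = p)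
    (hw : WE l wd v) (h2 : IsUnit (2 : ZMod p)) :
    ck0h p wd (mp X0 E0 (trcH l1 v (f0 t P))) (trcH l2 v (f0 t P)) = true := by
  have := ck0h_sound h hc hR hp h2
  unfold ck0h at this ⊢
  rw [R0h_WE hw]
  exact this

theorem co2hW {gx ge : ℕ → ℕ → ℕ} {l1 l2 : ℕ}
    (h : HE c (t ^ 2 + 4 * P) (fun f => gx (7 * res f.A l1) (7 * res f.A l2))
      (fun f => ge (ixh l1 f) (ixh l2 f)))
    (hc : Cen (endF v (f0 t P)) m)
    (hR : RelE (chi c.q c.p c.T) (snoc v m) t P = 0) {g : ℕ → ℕ → ℕ → Bool}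
    (hw : WE c.p wd v)
    (hg : co2h gx ge wd (trcH l1 v (f0 t P)) (trcH l2 v (f0 t P)) g = true) :
    ∃ K c' d : ℕ, (K : ZMod c.p) + c' * t + d * m = 0 ∧ g K c' d = true := by
  obtain ⟨S, cm, hS, hk⟩ := R2h_eqW h hw (f0_disc t P) 0 0
  unfold co2h at hg
  rw [hk] at hg
  refine ⟨S, 2 * (ge (ixh l1 (f0 t P)) (ixh l2 (f0 t P)) / 128), 2 * cm, ?_, ?_⟩
  · have h1 := h.h0 t P (f0_disc t P)
    have e := hS (2 * (m : ZMod c.p))
    have e2 := relH_two hc hR
    rw [WSH_f0 _ _ _ _ _ _ hc] at e e2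
    push_cast at e h1 ⊢
    rw [h1]
    linear_combination e + e2
  · cases v with
    | nil =>
      have e : (TL.hd (trcH l1 .nil (f0 t P)) (fun _ i _ => TL.hd (trcH l2 .nil (f0 t P))
        (fun _ i' _ => force (Nat.mul 2 (Nat.div (ge i i') 128)) (fun c =>
          force (Nat.mul 2 cm) (fun d => g S c d))))) =
        force (Nat.mul 2 (Nat.div (ge (ixh l1 (f0 t P)) (ixh l2 (f0 t P))) 128))
          (fun c => force (Nat.mul 2 cm) (fun d => g S c d)) := rfl
      rw [e, force_eq, force_eq] at hg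
      exact hg
    | cons a v =>
      have e : (TL.hd (trcH l1 (.cons a v) (f0 t P)) (fun _ i _ =>
        TL.hd (trcH l2 (.cons a v) (f0 t P))
        (fun _ i' _ => force (Nat.mul 2 (Nat.div (ge i i') 128)) (fun c =>
          force (Nat.mul 2 cm) (fun d => g S c d))))) =
        force (Nat.mul 2 (Nat.div (ge (ixh l1 (f0 t P)) (ixh l2 (f0 t P))) 128))
          (fun c => force (Nat.mul 2 cm) (fun d => g S c d)) := rfl
      rw [e, force_eq, force_eq] at hg
      exact hg

theorem co3hW {gx ge : ℕ → ℕ → ℕ → ℕ} {l1 l2 l3 : ℕ}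
    (h : HE c (t ^ 2 + 4 * P) (fun f => gx (7 * res f.A l1) (7 * res f.A l2) (7 * res f.A l3))
      (fun f => ge (ixh l1 f) (ixh l2 f) (ixh l3 f)))
    (hc : Cen (endF v (f0 t P)) m)
    (hR : RelE (chi c.q c.p c.T) (snoc v m) t P = 0) {g : ℕ → ℕ → ℕ → Bool}
    (hw : WE c.p wd v)
    (hg : co3h gx ge wd (trcH l1 v (f0 t P)) (trcH l2 v (f0 t P)) (trcH l3 v (f0 t P)) g = true) :
    ∃ K c' d : ℕ, (K : ZMod c.p) + c' * t + d * m = 0 ∧ g K c' d = true := by
  obtain ⟨S, cm, hS, hk⟩ := R3h_eqW h hw (f0_disc t P) 0 0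
  unfold co3h at hg
  rw [hk] at hg
  refine ⟨S, 2 * (ge (ixh l1 (f0 t P)) (ixh l2 (f0 t P)) (ixh l3 (f0 t P)) / 128), 2 * cm, ?_, ?_⟩
  · have h1 := h.h0 t P (f0_disc t P)
    have e := hS (2 * (m : ZMod c.p))
    have e2 := relH_two hc hR
    rw [WSH_f0 _ _ _ _ _ _ hc] at e e2
    push_cast at e h1 ⊢
    rw [h1]
    linear_combination e + e2
  · cases v with
    | nil =>
      have e : (TL.hd (trcH l1 .nil (f0 t P)) (fun _ i _ => TL.hd (trcH l2 .nil (f0 t P))
        (fun _ i' _ => TL.hd (trcH l3 .nil (f0 t P)) (fun _ i2 _ =>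
        force (Nat.mul 2 (Nat.div (ge i i' i2) 128)) (fun c =>
          force (Nat.mul 2 cm) (fun d => g S c d)))))) =
        force (Nat.mul 2 (Nat.div (ge (ixh l1 (f0 t P)) (ixh l2 (f0 t P)) (ixh l3 (f0 t P))) 128))
          (fun c => force (Nat.mul 2 cm) (fun d => g S c d)) := rfl
      rw [e, force_eq, force_eq] at hg
      exact hg
    | cons a v =>
      have e : (TL.hd (trcH l1 (.cons a v) (f0 t P)) (fun _ i _ =>
        TL.hd (trcH l2 (.cons a v) (f0 t P))
        (fun _ i' _ => TL.hd (trcH l3 (.cons a v) (f0 t P)) (fun _ i2 _ =>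
        force (Nat.mul 2 (Nat.div (ge i i' i2) 128)) (fun c =>
          force (Nat.mul 2 cm) (fun d => g S c d)))))) =
        force (Nat.mul 2 (Nat.div (ge (ixh l1 (f0 t P)) (ixh l2 (f0 t P)) (ixh l3 (f0 t P))) 128))
          (fun c => force (Nat.mul 2 cm) (fun d => g S c d)) := rfl
      rw [e, force_eq, force_eq] at hg
      exact hg

end sums

end Pool.Agent.L0h49.H
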