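import Pool.Agent.L0h49.H.Sharp
import Pool.Agent.L0h49.H.Odd
import Pool.Agent.L0h49.P.Z1

/-! Class number one, `d ≡ 2, 3 (mod 4)`: periods of length six and eight, odd periods. -/

set_option autoImplicit false
set_option maxHeartbeats 4000000

namespace Pool.Agent.L0h49.H

open Pool.Agent.N911 (nextQ omega WL Fm f0 fs)
open H419R2 (not_sq_of_squarefree)
open Pool.Agent.L0h49.E (LH endF)

/-- the reduced number -/
theorem setup {d : ℕ} (hsf : Squarefree d) (h4' : d % 4 = 2 ∨ d % 4 = 3) (hd1 : 1 < d) :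
    ∃ n P : ℕ, 0 < n ∧ 0 < P ∧ P ≤ 2 * n ∧ d = n * n + P ∧ ∃ α : ℝ,
      α ^ 2 = ((2 * (n : ℤ) : ℤ) : ℝ) * α + ((P : ℤ) : ℝ) ∧ Irrational α ∧
      ((2 * (n : ℤ) : ℤ) : ℝ) < α ∧ α < ((2 * (n : ℤ) : ℤ) : ℝ) + 1 ∧
      ∀ j : ℕ, nextQ^[j + 1] α = nextQ^[j + 1] (omega d) := by
  have hsf' : Squarefree (d : ℤ) := Int.squarefree_natCast.mpr hsf
  have hd1' : (1 : ℤ) < d := by exact_mod_cast hd1
  have hns := not_sq_of_squarefree hsf' hd1'
  have hirr : Irrational (√(d : ℝ)) := by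
    rintro ⟨q, hq⟩
    apply hns
    refine ⟨q, ?_⟩
    have h1 : ((q : ℝ)) ^ 2 = d := by
      rw [hq]
      exact Real.sq_sqrt (by positivity)
    have h2 : ((q ^ 2 : ℚ) : ℝ) = ((d : ℚ) : ℝ) := by push_cast; exact h1
    have h3 : q ^ 2 = (d : ℚ) := by exact_mod_cast h2
    rw [h3]; push_cast; rfl
  have hsq : √(d : ℝ) ^ 2 = d := Real.sq_sqrt (by positivity)
  have hs1 : 1 < √(d : ℝ) := by
    rw [show (1 : ℝ) = √1 by simp]
    apply Real.sqrt_lt_sqrt (by norm_num)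
    exact_mod_cast hd1
  have ho : omega d = √(d : ℝ) := by unfold omega; rw [if_neg (by omega)]
  rw [ho]
  obtain ⟨n, hn⟩ : ∃ n : ℤ, n = ⌊√(d : ℝ)⌋ := ⟨_, rfl⟩
  have hn1 : 1 ≤ n := by
    rw [hn]
    apply Int.le_floor.mpr
    push_cast
    linarith
  have hfl : (n : ℝ) ≤ √(d : ℝ) := by rw [hn]; exact Int.floor_le _
  have hfl2 : √(d : ℝ) < n + 1 := by rw [hn]; exact Int.lt_floor_add_one _
  have hnq : nextQ (√(d : ℝ) + ((n : ℤ) : ℝ)) = nextQ (√(d : ℝ)) := by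
    unfold nextQ
    rw [Int.fract_add_intCast]
  have hstr : (n : ℝ) < √(d : ℝ) := by
    refine lt_of_le_of_ne hfl ?_
    intro h
    exact hirr ⟨n, by push_cast; exact h⟩
  have hn1R : (1 : ℝ) ≤ n := by exact_mod_cast hn1
  obtain ⟨P, hP⟩ : ∃ P : ℤ, (d : ℤ) = n ^ 2 + P := ⟨d - n ^ 2, by ring⟩
  have hPr : (d : ℝ) = n ^ 2 + P := by exact_mod_cast hP
  have hP0 : 0 < P := by
    have h1 : ((n : ℝ)) ^ 2 < √(d : ℝ) ^ 2 := by nlinarith
    rw [hsq, hPr] at h1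
    have : (0 : ℝ) < P := by linarith
    exact_mod_cast this
  have hP2 : P < 2 * n + 1 := by
    have h1 : √(d : ℝ) ^ 2 < ((n : ℝ) + 1) ^ 2 := by nlinarith
    rw [hsq, hPr] at h1
    have : (P : ℝ) < ((2 * n + 1 : ℤ) : ℝ) := by push_cast; linarith
    exact_mod_cast this
  obtain ⟨n', rfl⟩ := Int.eq_ofNat_of_zero_le (show 0 ≤ n by omega)
  obtain ⟨P', rfl⟩ := Int.eq_ofNat_of_zero_le hP0.le
  refine ⟨n', P', by omega, by omega, by omega, ?_, √(d : ℝ) + (((n' : ℕ) : ℤ) : ℝ), ?_,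
    hirr.add_intCast _, ?_, ?_, ?_⟩
  · have : ((d : ℕ) : ℤ) = ((n' * n' + P' : ℕ) : ℤ) := by
      push_cast
      linear_combination hP
    exact_mod_cast this
  · push_cast at hPr ⊢
    linear_combination hsq + hPr
  · push_cast at hstr ⊢
    linarith
  · push_cast at hfl2 ⊢
    linarith
  · intro j
    rw [Function.iterate_succ_apply, hnq, ← Function.iterate_succ_apply]

section

variable {d : ℕ} {K : Type*} [Field K] [NumberField K] {x : K}

/-- periods of length six and eight -/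
theorem long_period (hsf : Squarefree d) (h4' : d % 4 = 2 ∨ d % 4 = 3) (hd : 4 ≤ d)
    (hK : Module.finrank ℚ K = 2) (hx : x ^ 2 = (d : K))
    (hcl : NumberField.classNumber K = 1) {k : ℕ} (hk : k = 3 ∨ k = 4)
    (hper : nextQ^[2 * k + 1] (omega d) = nextQ (omega d))
    (hmin : ∀ j : ℕ, 0 < j → j < 2 * k → nextQ^[j + 1] (omega d) ≠ nextQ (omega d)) :
    d ∈ EvL := by
  have hx' : x ^ 2 = ((d : ℤ) : K) := by rw [hx]; push_cast; rfl
  obtain ⟨n, P, hn0, hP0, hPn, hdn, α, hq, hαirr, hb1, hb2, hsh⟩ := setup hsf h4' (by omega)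
  have hnq : nextQ α = nextQ (omega d) := hsh 0
  obtain ⟨v, m, hv, hlen, hm0, hc, hC1, hA, hA2⟩ := Pool.Agent.L0h48.H.t_CFE α (2 * (n : ℤ)) P hq
    hαirr (by omega) hb1 hb2 k (by omega) (by rw [hsh, hnq]; exact hper)
    (fun j h1 h2 => by rw [hsh, hnq]; exact hmin j h1 h2)
  have hA2' := hA2 (by omega)
  have e : ((2 * n : ℕ) : ℤ) = 2 * ((n : ℕ) : ℤ) := by push_cast; ring
  rw [← e] at hc hC1
  simp only [← e] at hA hA2'
  exact word_sharp (z := x) hv (by omega) hm0 hc hC1 hA hA2' hn0 hP0 hPn hdn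
    (Int.squarefree_natCast.mpr hsf) h4' hd hK hx' hcl

/-- an element of norm `± 2` -/
theorem exists_pm2 (hsf : Squarefree (d : ℤ)) (hd4 : d % 4 = 2 ∨ d % 4 = 3) (hd2 : 2 < d)
    (hK : Module.finrank ℚ K = 2) (hz : x ^ 2 = ((d : ℤ) : K))
    (hcl : NumberField.classNumber K = 1) :
    ∃ U' T' : ℕ, T' * T' = d * (U' * U') + 2 ∨ T' * T' + 2 = d * (U' * U') := by
  have hd1' : (1 : ℤ) < d := by exact_mod_cast (by omega : 1 < d)
  have hns := not_sq_of_squarefree hsf hd1'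
  have hdz : (d : ℤ) = (0 : ℤ) ^ 2 + (d : ℤ) := by ring
  have i1 : IsDomain (H419R2.QA (d : ℤ) (2 * 0)) := Pool.Agent.N911.Ev.isDomain_even hdz hns
  have i2 : IsPrincipalIdealRing (H419R2.QA (d : ℤ) (2 * 0)) :=
    Pool.Agent.N911.Ev.pid_even hdz hsf (by omega) hd1' hK hz hcl
  obtain ⟨w, hw⟩ := H419R2.exists_norm_prime (R := (d : ℤ)) (m := 2 * 0) Nat.prime_two
    (w0 := (d : ℤ))
    (by
      rcases Int.emod_two_eq_zero_or_one (d : ℤ) with h | h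
      · obtain ⟨j, hj⟩ : ∃ j, (d : ℤ) = 2 * j := ⟨(d : ℤ) / 2, by omega⟩
        rw [hj]
        exact ⟨2 * j ^ 2 - j, by push_cast; ring⟩
      · obtain ⟨j, hj⟩ : ∃ j, (d : ℤ) = 2 * j + 1 := ⟨(d : ℤ) / 2, by omega⟩
        rw [hj]
        exact ⟨2 * j ^ 2 + j, by push_cast; ring⟩)
  rw [H419R2.norm_eq] at hw
  refine ⟨w.im.natAbs, w.re.natAbs, ?_⟩
  have e1 : ((w.re.natAbs * w.re.natAbs : ℕ) : ℤ) = w.re ^ 2 := by
    rw [Int.natAbs_mul_self]; ring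
  have e2 : ((w.im.natAbs * w.im.natAbs : ℕ) : ℤ) = w.im ^ 2 := by
    rw [Int.natAbs_mul_self]; ring
  rcases Int.natAbs_eq (w.re ^ 2 + 2 * 0 * w.re * w.im - (d : ℤ) * w.im ^ 2) with h1 | h1
  · left
    rw [hw] at h1
    have : ((w.re.natAbs * w.re.natAbs : ℕ) : ℤ) =
        ((d * (w.im.natAbs * w.im.natAbs) + 2 : ℕ) : ℤ) := by
      rw [e1, Nat.cast_add, Nat.cast_mul, e2]
      push_cast at h1 ⊢
      linear_combination h1
    exact_mod_cast this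
  · right
    rw [hw] at h1
    have : ((w.re.natAbs * w.re.natAbs + 2 : ℕ) : ℤ) =
        ((d * (w.im.natAbs * w.im.natAbs) : ℕ) : ℤ) := by
      rw [Nat.cast_add, e1, Nat.cast_mul, e2]
      push_cast at h1 ⊢
      linear_combination h1
    exact_mod_cast this

/-- odd periods -/
theorem odd_period (hsf : Squarefree d) (h4' : d % 4 = 2 ∨ d % 4 = 3)
    (hK : Module.finrank ℚ K = 2) (hx : x ^ 2 = (d : K))
    (hcl : NumberField.classNumber K = 1) {l : ℕ} (hl : l % 2 = 1)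
    (hper : nextQ^[l + 1] (omega d) = nextQ (omega d)) : d = 2 := by
  by_contra hne
  have hd2 : 2 < d := by omega
  have hx' : x ^ 2 = ((d : ℤ) : K) := by rw [hx]; push_cast; rfl
  obtain ⟨n, P, hn0, hP0, hPn, hdn, α, hq, hαirr, hb1, hb2, hsh⟩ := setup hsf h4' (by omega)
  have hnq : nextQ α = nextQ (omega d) := hsh 0
  obtain ⟨X, Y, hXY⟩ := t_ODD α (2 * (n : ℤ)) P hq hαirr (by omega) hb1 hb2 l hl
    (by rw [hsh, hnq]; exact hper)
  obtain ⟨b, a, hab⟩ := exists_pm2 (Int.squarefree_natCast.mpr hsf) h4' hd2 hK hx' hcl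
  refine Pool.Agent.L0h49.E.neg_two hsf hd2 (S := (X + n * Y).natAbs) (V := Y.natAbs) (a := a)
    (b := b) ?_ hab
  have e1 : (((X + n * Y).natAbs * (X + n * Y).natAbs : ℕ) : ℤ) = (X + n * Y) ^ 2 := by
    rw [Int.natAbs_mul_self]; ring
  have e2 : ((Y.natAbs * Y.natAbs : ℕ) : ℤ) = Y ^ 2 := by
    rw [Int.natAbs_mul_self]; ring
  have hdz : ((d : ℕ) : ℤ) = n * n + P := by exact_mod_cast hdn
  have : (((X + n * Y).natAbs * (X + n * Y).natAbs + 1 : ℕ) : ℤ) =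
      ((d * (Y.natAbs * Y.natAbs) : ℕ) : ℤ) := by
    rw [Nat.cast_add, e1, Nat.cast_mul, e2, hdz]
    push_cast
    linear_combination hXY
  exact_mod_cast this

end

end Pool.Agent.L0h49.H
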